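import Mathlib

/-! Combinatorial lemmas for the linear lower bound on obstacle numbers. -/

namespace Pool.Agent.Lib.MP_5bf547_lin

open Classical Finset

lemma chain_key {τ : Type} {C : Set (Set τ)} (hC : IsChain (· ⊆ ·) C) {A A' D D' : Set τ}
    (hA : A ∈ C) (hA' : A' ∈ C) (hD : D ∈ C) (hD' : D' ∈ C) (h1 : A ⊆ A') (h2 : D ⊆ D')
    (hne : A ≠ A') (h : symmDiff A A' = symmDiff D D') : D = A ∧ D' = A' := by
  have hm : ∀ v, (v ∈ A' ∧ v ∉ A) ↔ (v ∈ D' ∧ v ∉ D) := by
    intro v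
    have := Set.ext_iff.1 h v
    have a := @h1 v
    have b := @h2 v
    simp only [Set.mem_symmDiff] at this
    tauto
  obtain ⟨d, d1, d2⟩ : ∃ d, d ∈ A' ∧ d ∉ A := by
    by_contra k
    push Not at k
    exact hne (Set.Subset.antisymm h1 k)
  obtain ⟨d3, d4⟩ := (hm d).1 ⟨d1, d2⟩
  have e1 : D = A := by
    apply Set.Subset.antisymm
    · intro v hv
      by_contra k
      rcases hC.total hA' hD with c | c
      · exact d4 (c d1)
      · exact ((hm v).1 ⟨c hv, k⟩).2 hv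
    · intro v hv
      by_contra k
      rcases hC.total hD' hA with c | c
      · exact d2 (c d3)
      · exact ((hm v).2 ⟨c hv, k⟩).2 hv
  refine ⟨e1, ?_⟩
  subst e1
  exact (symmDiff_right_injective D h).symm

lemma chain_pair {τ : Type} {C : Set (Set τ)} (hC : IsChain (· ⊆ ·) C) {A A' D D' : Set τ}
    (hA : A ∈ C) (hA' : A' ∈ C) (hD : D ∈ C) (hD' : D' ∈ C)
    (hne : A ≠ A') (h : symmDiff A A' = symmDiff D D') : D = A ∨ D = A' := by
  rcases hC.total hA hA' with c | c <;> rcases hC.total hD hD' with d | d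
  · exact Or.inl (chain_key hC hA hA' hD hD' c d hne h).1
  · exact Or.inr (chain_key hC hA hA' hD' hD c d hne (h.trans (symmDiff_comm _ _))).2
  · exact Or.inr (chain_key hC hA' hA hD hD' c d hne.symm ((symmDiff_comm _ _).trans h)).1
  · exact Or.inl (chain_key hC hA' hA hD' hD c d hne.symm
      ((symmDiff_comm _ _).trans (h.trans (symmDiff_comm _ _)))).2

lemma two_nbrs {τ : Type} {C : Set (Set τ)} (hC : IsChain (· ⊆ ·) C) (a a' : Set τ) :
    ∃ b1 b2 : Set τ, a ≠ a' → ∀ b, symmDiff a b ∈ C → symmDiff a' b ∈ C → b = b1 ∨ b = b2 := by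
  by_cases h : ∃ b, symmDiff a b ∈ C ∧ symmDiff a' b ∈ C
  · obtain ⟨b0, h1, h2⟩ := h
    refine ⟨b0, symmDiff a (symmDiff a' b0), fun hne b k1 k2 => ?_⟩
    have hne' : symmDiff a b0 ≠ symmDiff a' b0 := fun e => hne (symmDiff_left_injective b0 e)
    have e : symmDiff (symmDiff a b0) (symmDiff a' b0) = symmDiff (symmDiff a b) (symmDiff a' b) := by
      ext v; simp only [Set.mem_symmDiff]; tauto
    rcases chain_pair hC h1 h2 k1 k2 hne' e with c | c
    · exact Or.inl (symmDiff_right_injective a c)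
    · right
      rw [← c, symmDiff_symmDiff_cancel_left]
  · exact ⟨∅, ∅, fun _ b k1 k2 => absurd ⟨b, k1, k2⟩ h⟩

variable {ι : Type}

/-- between any two large sets there is an edge -/
def Dense (L R : Finset ι) (B : Set (ι × ι)) (s : ℕ) : Prop :=
  ∀ A ⊆ L, ∀ A' ⊆ R, s ≤ A.card → s ≤ A'.card → ∃ a ∈ A, ∃ b ∈ A', (a, b) ∈ B

lemma Dense.right {L R : Finset ι} {B : Set (ι × ι)} {s : ℕ} (h : Dense L R B s) {A : Finset ι}
    (hA : A ⊆ L) (hs : s ≤ A.card) : (R.filter (fun b => ∀ a ∈ A, (a, b) ∉ B)).card < s := by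
  by_contra k
  obtain ⟨a, ha, b, hb, hab⟩ := h A hA _ (filter_subset _ _) hs (not_lt.1 k)
  exact (mem_filter.1 hb).2 a ha hab

lemma Dense.left {L R : Finset ι} {B : Set (ι × ι)} {s : ℕ} (h : Dense L R B s) {A : Finset ι}
    (hA : A ⊆ R) (hs : s ≤ A.card) : (L.filter (fun a => ∀ b ∈ A, (a, b) ∉ B)).card < s := by
  by_contra k
  obtain ⟨a, ha, b, hb, hab⟩ := h _ (filter_subset _ _) A hA (not_lt.1 k) hs
  exact (mem_filter.1 ha).2 b hb hab

lemma popular {τ : Type} (L : Finset ι) (F : ι → Set τ) :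
    ∃ a : Set τ, ∀ a', (L.filter (fun p => F p = a')).card ≤ (L.filter (fun p => F p = a)).card := by
  rcases L.eq_empty_or_nonempty with h | h
  · exact ⟨∅, fun _ => by simp [h]⟩
  obtain ⟨p, _, hp⟩ := exists_max_image L (fun p => (L.filter (fun q => F q = F p)).card) h
  refine ⟨F p, fun a' => ?_⟩
  rcases (L.filter (fun p => F p = a')).eq_empty_or_nonempty with k | ⟨q, hq⟩
  · simp [k]
  · obtain ⟨q1, q2⟩ := mem_filter.1 hq
    rw [← q2]
    exact hp q q1

lemma struct {τ : Type} {C : Set (Set τ)} (hC : IsChain (· ⊆ ·) C) {L R : Finset ι}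
    {B : Set (ι × ι)} {s : ℕ} (hs : 1 ≤ s) (hD : Dense L R B s) (F : ι → Set τ)
    (hF : ∀ e ∈ B, symmDiff (F e.1) (F e.2) ∈ C) :
    (∃ a1 a2, (L.filter (fun p => F p ≠ a1 ∧ F p ≠ a2)).card ≤ 4 * s ^ 3) ∨
      ∃ b, (R.filter (fun q => F q ≠ b)).card ≤ 4 * s ^ 3 := by
  have s1 : s ≤ s ^ 3 := by nlinarith [Nat.mul_le_mul hs hs, Nat.pow_le_pow_left hs 2]
  have s2 : s * s ≤ s ^ 3 := by nlinarith
  obtain ⟨a, ha⟩ := popular L F
  by_cases h1 : (L.filter (fun p => F p ≠ a)).card ≤ s * s + s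
  · left
    refine ⟨a, a, ?_⟩
    simp only [and_self]
    omega
  push Not at h1
  obtain ⟨A1, A2, k1, k2, c1, c2, hd⟩ : ∃ A1 A2 : Finset ι, A1 ⊆ L ∧ A2 ⊆ L ∧ A1.card = s ∧
      A2.card = s ∧ ∀ x ∈ A1, ∀ y ∈ A2, F x ≠ F y := by
    by_cases h2 : s ≤ (L.filter (fun p => F p = a)).card
    · obtain ⟨A1, i1, j1⟩ := exists_subset_card_eq h2
      obtain ⟨A2, i2, j2⟩ := exists_subset_card_eq
        (show s ≤ (L.filter (fun p => F p ≠ a)).card by omega)
      refine ⟨A1, A2, i1.trans (filter_subset _ _), i2.trans (filter_subset _ _), j1, j2, ?_⟩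
      intro x hx y hy e
      exact (mem_filter.1 (i2 hy)).2 (e.symm.trans (mem_filter.1 (i1 hx)).2)
    · have hL : s * s + s < L.card := h1.trans_le (card_filter_le _ _)
      obtain ⟨A1, i1, j1⟩ := exists_subset_card_eq (show s ≤ L.card by omega)
      have hc : (A1.biUnion (fun x => L.filter (fun p => F p = F x))).card ≤ s * s := by
        rw [← j1]
        refine card_biUnion_le_card_mul _ _ _ (fun x _ => ?_)
        have := ha (F x)
        omega
      have hc2 := le_card_sdiff (A1.biUnion (fun x => L.filter (fun p => F p = F x))) L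
      obtain ⟨A2, i2, j2⟩ := exists_subset_card_eq (show s ≤
        (L \ A1.biUnion (fun x => L.filter (fun p => F p = F x))).card by omega)
      refine ⟨A1, A2, i1, i2.trans sdiff_subset, j1, j2, ?_⟩
      intro x hx y hy e
      obtain ⟨y1, y2⟩ := mem_sdiff.1 (i2 hy)
      exact y2 (mem_biUnion.2 ⟨x, hx, mem_filter.2 ⟨y1, e.symm⟩⟩)
  have r1 := hD.right k1 c1.ge
  have r2 := hD.right k2 c2.ge
  obtain ⟨b, hb⟩ := popular R F
  by_cases h3 : (R.filter (fun q => F q ≠ b)).card ≤ 4 * s ^ 3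
  · exact Or.inr ⟨b, h3⟩
  push Not at h3
  choose b1 b2 hb12 using two_nbrs hC
  set V : Finset (Set τ) := (A1 ×ˢ A2).image (fun x => b1 (F x.1) (F x.2)) ∪
    (A1 ×ˢ A2).image (fun x => b2 (F x.1) (F x.2)) with hV
  have hVc : V.card ≤ 2 * (s * s) := by
    have a1 := card_image_le (s := A1 ×ˢ A2) (f := fun x => b1 (F x.1) (F x.2))
    have a2 := card_image_le (s := A1 ×ˢ A2) (f := fun x => b2 (F x.1) (F x.2))
    rw [card_product, c1, c2] at a1 a2
    have := card_union_le ((A1 ×ˢ A2).image (fun x => b1 (F x.1) (F x.2)))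
      ((A1 ×ˢ A2).image (fun x => b2 (F x.1) (F x.2)))
    rw [hV]
    omega
  set T : Finset ι := (R.filter (fun q => F q ≠ b)) \ (R.filter (fun b => ∀ a ∈ A1, (a, b) ∉ B) ∪
    R.filter (fun b => ∀ a ∈ A2, (a, b) ∉ B)) with hT
  have hTc : 2 * s ^ 3 < T.card := by
    have a1 := le_card_sdiff (R.filter (fun b => ∀ a ∈ A1, (a, b) ∉ B) ∪
      R.filter (fun b => ∀ a ∈ A2, (a, b) ∉ B)) (R.filter (fun q => F q ≠ b))
    have a2 := card_union_le (R.filter (fun b => ∀ a ∈ A1, (a, b) ∉ B))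
      (R.filter (fun b => ∀ a ∈ A2, (a, b) ∉ B))
    rw [hT]
    omega
  have hmap : ∀ q ∈ T, F q ∈ V := by
    intro q hq
    simp only [hT, mem_sdiff, mem_filter, mem_union, not_or, not_and, not_forall, not_not] at hq
    obtain ⟨⟨q1, _⟩, q3, q4⟩ := hq
    obtain ⟨x, hx, ex⟩ := q3 q1
    obtain ⟨y, hy, ey⟩ := q4 q1
    rcases hb12 (F x) (F y) (hd x hx y hy) (F q) (hF _ ex) (hF _ ey) with c | c
    · exact mem_union_left _ (mem_image.2 ⟨(x, y), mem_product.2 ⟨hx, hy⟩, c.symm⟩)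
    · exact mem_union_right _ (mem_image.2 ⟨(x, y), mem_product.2 ⟨hx, hy⟩, c.symm⟩)
  obtain ⟨b', _, hb'⟩ := exists_lt_card_fiber_of_mul_lt_card_of_maps_to hmap
    (show V.card * s < T.card by nlinarith)
  have hne : b ≠ b' := by
    obtain ⟨q, hq⟩ := card_pos.1 (show 0 < (T.filter (fun x => F x = b')).card by omega)
    obtain ⟨q1, q2⟩ := mem_filter.1 hq
    rw [← q2]
    exact ((mem_filter.1 (mem_sdiff.1 q1).1).2).symm
  have big' : s ≤ (R.filter (fun q => F q = b')).card := by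
    refine hb'.le.trans (card_le_card (filter_subset_filter _ ?_))
    exact sdiff_subset.trans (filter_subset _ _)
  have big : s ≤ (R.filter (fun q => F q = b)).card := big'.trans (hb b')
  have l1 := hD.left (filter_subset _ _) big
  have l2 := hD.left (filter_subset _ _) big'
  left
  refine ⟨b1 b b', b2 b b', ?_⟩
  have hsub : L.filter (fun p => F p ≠ b1 b b' ∧ F p ≠ b2 b b') ⊆
      L.filter (fun a => ∀ q ∈ R.filter (fun q => F q = b), (a, q) ∉ B) ∪
      L.filter (fun a => ∀ q ∈ R.filter (fun q => F q = b'), (a, q) ∉ B) := by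
    intro p hp
    obtain ⟨p1, p2, p3⟩ := mem_filter.1 hp
    by_contra k
    simp only [mem_filter, mem_union, not_or, not_and, not_forall, not_not] at k
    obtain ⟨x, ⟨_, hx⟩, ex⟩ := k.1 p1
    obtain ⟨y, ⟨_, hy⟩, ey⟩ := k.2 p1
    have u1 := hF _ ex
    have u2 := hF _ ey
    simp only [hx, hy] at u1 u2
    rw [symmDiff_comm] at u1 u2
    rcases hb12 b b' hne (F p) u1 u2 with c | c
    · exact p2 c
    · exact p3 c
  have := (card_le_card hsub).trans (card_union_le _ _)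
  omega

lemma codeg [Fintype ι] (H : Finset (ι × ι)) (P : Finset ι)
    (h : ∀ p p', p ≠ p' → (univ.filter (fun q => (p, q) ∈ H ∧ (p', q) ∈ H)).card ≤ 2) :
    (H.filter (fun e => e.1 ∈ P)).card ≤ Fintype.card ι + 2 * P.card ^ 2 := by
  have hx : ∀ q : ι, ∃ p0 : ι, (∃ p ∈ P, (p, q) ∈ H) → p0 ∈ P ∧ (p0, q) ∈ H := by
    intro q
    by_cases k : ∃ p ∈ P, (p, q) ∈ H
    · obtain ⟨p, k⟩ := k
      exact ⟨p, fun _ => k⟩
    · exact ⟨q, fun a => absurd a k⟩
  choose p0 hp0 using hx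
  set S := H.filter (fun e => e.1 ∈ P) with hS
  have hp : ∀ e ∈ S, p0 e.2 ∈ P ∧ (p0 e.2, e.2) ∈ H := fun e he =>
    hp0 e.2 ⟨e.1, (mem_filter.1 he).2, (mem_filter.1 he).1⟩
  have a1 : (S.filter (fun e => e.1 = p0 e.2)).card ≤ Fintype.card ι := by
    rw [← card_univ]
    refine card_le_card_of_injOn Prod.snd (fun _ _ => mem_coe.2 (mem_univ _)) ?_
    intro e he e' he' k
    have b1 := (mem_filter.1 (mem_coe.1 he)).2
    have b2 := (mem_filter.1 (mem_coe.1 he')).2
    exact Prod.ext (by rw [b1, b2, k]) k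
  have a2 : (S.filter (fun e => ¬ e.1 = p0 e.2)).card ≤ 2 * (P ×ˢ P).card := by
    refine card_le_mul_card_image_of_maps_to (f := fun e => (p0 e.2, e.1)) (fun e he => ?_) 2 ?_
    · obtain ⟨b1, _⟩ := mem_filter.1 he
      exact mem_product.2 ⟨(hp e b1).1, (mem_filter.1 b1).2⟩
    · rintro ⟨x, y⟩ _
      by_cases hxy : x = y
      · rw [card_eq_zero.2]
        · norm_num
        refine filter_eq_empty_iff.2 (fun e he k => ?_)
        obtain ⟨k1, k2⟩ := Prod.mk.inj k
        exact (mem_filter.1 he).2 (by rw [k1, k2, hxy])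
      refine le_trans (card_le_card_of_injOn Prod.snd ?_ ?_) (h x y hxy)
      · intro e he
        obtain ⟨b1, k⟩ := mem_filter.1 (mem_coe.1 he)
        obtain ⟨k1, k2⟩ := Prod.mk.inj k
        obtain ⟨b2, _⟩ := mem_filter.1 b1
        refine mem_coe.2 (mem_filter.2 ⟨mem_univ _, ?_, ?_⟩)
        · rw [← k1]; exact (hp e b2).2
        · rw [← k2]; exact (mem_filter.1 b2).1
      · intro e he e' he' k
        have b1 := (Prod.mk.inj (mem_filter.1 (mem_coe.1 he)).2).2
        have b2 := (Prod.mk.inj (mem_filter.1 (mem_coe.1 he')).2).2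
        exact Prod.ext (b1.trans b2.symm) k
  have := card_filter_add_card_filter_not (s := S) (fun e => e.1 = p0 e.2)
  rw [card_product] at a2
  nlinarith

lemma codeg' [Fintype ι] (H : Finset (ι × ι)) (P : Finset ι)
    (h : ∀ q q', q ≠ q' → (univ.filter (fun p => (p, q) ∈ H ∧ (p, q') ∈ H)).card ≤ 2) :
    (H.filter (fun e => e.2 ∈ P)).card ≤ Fintype.card ι + 2 * P.card ^ 2 := by
  have hm : ∀ a b : ι, (a, b) ∈ H.image Prod.swap ↔ (b, a) ∈ H := by
    intro a b
    simp only [mem_image]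
    constructor
    · rintro ⟨⟨x, y⟩, k1, k2⟩
      obtain ⟨rfl, rfl⟩ := Prod.mk.inj k2
      exact k1
    · intro k
      exact ⟨_, k, rfl⟩
  have := codeg (H.image Prod.swap) P (fun q q' k => by simpa only [hm] using h q q' k)
  refine le_trans (card_le_card_of_injOn Prod.swap ?_ Prod.swap_injective.injOn) this
  intro e he
  obtain ⟨b1, b2⟩ := mem_filter.1 (mem_coe.1 he)
  exact mem_coe.2 (mem_filter.2 ⟨mem_image_of_mem _ b1, b2⟩)

lemma cut (S : Finset ι) (σ : ι → ℕ) (s : ℕ) (hs : 1 ≤ s) :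
    ∃ k, (S.filter (fun x => k < σ x)).card < s ∧
      (s ≤ (S.filter (fun x => k ≤ σ x)).card ∨ k = 0) := by
  have hex : ∃ k, (S.filter (fun x => k < σ x)).card < s := by
    refine ⟨S.sup σ, ?_⟩
    rw [card_eq_zero.2]
    · omega
    exact filter_eq_empty_iff.2 (fun x hx => not_lt.2 (le_sup (f := σ) hx))
  refine ⟨Nat.find hex, Nat.find_spec hex, ?_⟩
  rcases Nat.eq_zero_or_pos (Nat.find hex) with h | h
  · exact Or.inr h
  · left
    have := Nat.find_min hex (show Nat.find hex - 1 < Nat.find hex by omega)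
    refine (not_lt.1 this).trans (le_of_eq ?_)
    congr 1
    ext x
    simp only [mem_filter, and_congr_right_iff]
    intro _
    omega

lemma three_of_card {S : Finset ι} {τ : Type} (F : ι → τ) (b1 b2 : τ)
    (h : ∀ q ∈ S, F q = b1 ∨ F q = b2) (h2 : ∀ q ∈ S, ∀ q' ∈ S, F q = F q' → q = q') :
    S.card ≤ 2 := by
  refine le_trans (card_le_card_of_injOn F (t := {b1, b2}) ?_ ?_) card_le_two
  · intro q hq
    simpa using h q hq
  · intro q hq q' hq' k
    exact h2 q hq q' hq' k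

end Pool.Agent.Lib.MP_5bf547_lin
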