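import Mathlib
import Pool.Agent.Lib.MP_5bf547_lin.Comb

/-! The abstract counting lemma: heights of edges on a separating line, pockets of one face. -/

namespace Pool.Agent.Lib.MP_5bf547_lin

open Classical Finset

variable {ι : Type}

structure Sys (B : Set (ι × ι)) (H : Finset (ι × ι)) (h u : ι × ι → ℝ) : Prop where
  sub : ∀ e ∈ H, e ∈ B
  inj1 : ∀ g ∈ B, ∀ g' ∈ B, g.1 = g'.1 → h g = h g' → g = g'
  inj2 : ∀ g ∈ B, ∀ g' ∈ B, g.2 = g'.2 → h g = h g' → g = g'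
  ne : ∀ e ∈ H, ∀ g ∈ B, u e ≠ h g
  a1 : ∀ e ∈ H, h e < u e
  a2 : ∀ e ∈ H, ∀ g ∈ B, g.2 = e.2 → h e < h g → u e < h g
  b : ∀ e ∈ H, ∀ g ∈ B, g.1 = e.1 → h e < h g → h g < u e → ∀ g' ∈ B, g'.2 = g.2 → h g' < u e
  c : ∀ e ∈ H, ∀ e' ∈ H, ∃ f : ι → Prop, ∀ g ∈ B, ((f g.1 ↔ f g.2) ↔ (h g < u e ↔ h g < u e'))

/-- the slot of an edge -/
def Slot (H : Finset (ι × ι)) (h u : ι × ι → ℝ) (t : ℝ) (g : ι × ι) : Set (ι × ι) :=
  {e | e ∈ H ∧ u e < h g ∧ h g < t}

variable {B : Set (ι × ι)} {H : Finset (ι × ι)} {h u : ι × ι → ℝ} {t : ℝ}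

lemma slot_mono {g g' : ι × ι} (k : h g ≤ h g') (k' : h g' < t) :
    Slot H h u t g ⊆ Slot H h u t g' := fun _ he => ⟨he.1, he.2.1.trans_le k, k'⟩

lemma slot_chain : IsChain (· ⊆ ·) (Slot H h u t '' B) := by
  rintro _ ⟨g, _, rfl⟩ _ ⟨g', _, rfl⟩ _
  by_cases k : h g < t
  · by_cases k' : h g' < t
    · rcases le_total (h g) (h g') with c | c
      · exact Or.inl (slot_mono c k')
      · exact Or.inr (slot_mono c k)
    · exact Or.inr (fun _ he => absurd he.2.2 k')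
  · exact Or.inl (fun _ he => absurd he.2.2 k)

lemma slot_fin (g : ι × ι) : (Slot H h u t g).Finite :=
  (H.finite_toSet).subset (fun _ he => he.1)

lemma lt_of_card {g g' : ι × ι} (k : h g < t)
    (k' : (Slot H h u t g).ncard < (Slot H h u t g').ncard) : h g < h g' := by
  by_contra c
  exact absurd (Set.ncard_le_ncard (slot_mono (not_lt.1 c) k) (slot_fin g)) (not_le.2 k')

lemma Sys.top (S : Sys B H h u) (ht : ∀ e ∈ H, u e ≤ t) {e : ι × ι} (he : e ∈ H) : h e < t :=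
  (S.a1 e he).trans_le (ht e he)

lemma Sys.c1 (S : Sys B H h u) (ht : ∀ e ∈ H, u e ≤ t) {e e' : ι × ι} (he : e ∈ H) (he' : e' ∈ H)
    (k : e.2 = e'.2) (k' : (Slot H h u t e).ncard = (Slot H h u t e').ncard) : e = e' := by
  have aux : ∀ e e', e ∈ H → e' ∈ H → e.2 = e'.2 → h e < h e' →
      (Slot H h u t e).ncard < (Slot H h u t e').ncard := by
    intro e e' he he' k c
    refine Set.ncard_lt_ncard ⟨slot_mono c.le (S.top ht he'), fun d => ?_⟩ (slot_fin _)
    have := d (show e ∈ Slot H h u t e' from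
      ⟨he, S.a2 e he e' (S.sub _ he') k.symm c, S.top ht he'⟩)
    exact absurd this.2.1 (not_lt.2 (S.a1 e he).le)
  rcases lt_trichotomy (h e) (h e') with c | c | c
  · have := aux e e' he he' k c; omega
  · exact S.inj2 e (S.sub _ he) e' (S.sub _ he') k c
  · have := aux e' e he' he k.symm c; omega

lemma Sys.wrap (S : Sys B H h u) (ht : ∀ e ∈ H, u e ≤ t) {e e' : ι × ι} (he : e ∈ H)
    (he' : e' ∈ H) (k : e.1 = e'.1) (k' : Slot H h u t e = Slot H h u t e') (c : h e' < h e)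
    {g : ι × ι} (hg : g ∈ B) (k2 : g.2 = e.2) : h g < u e' := by
  refine S.b e' he' e (S.sub _ he) k c ?_ g hg k2
  rcases lt_trichotomy (h e) (u e') with d | d | d
  · exact d
  · exact absurd d.symm (S.ne e' he' e (S.sub _ he))
  · have : e' ∈ Slot H h u t e := ⟨he', d, S.top ht he⟩
    rw [k'] at this
    exact absurd this.2.1 (not_lt.2 (S.a1 e' he').le)

lemma Sys.c2 (S : Sys B H h u) (ht : ∀ e ∈ H, u e ≤ t) {p p' q q' : ι} (h1 : (p, q) ∈ H)
    (h2 : (p, q') ∈ H) (h3 : (p', q) ∈ H) (h4 : (p', q') ∈ H)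
    (k1 : Slot H h u t (p, q) = Slot H h u t (p, q'))
    (k2 : Slot H h u t (p', q) = Slot H h u t (p', q')) : p = p' ∨ q = q' := by
  have aux : ∀ p p' q q', (p, q) ∈ H → (p, q') ∈ H → (p', q) ∈ H → (p', q') ∈ H →
      Slot H h u t (p, q) = Slot H h u t (p, q') → Slot H h u t (p', q) = Slot H h u t (p', q') →
      (Slot H h u t (p, q)).ncard < (Slot H h u t (p', q)).ncard → h (p, q') < h (p, q) → False := by
    intro p p' q q' h1 h2 h3 h4 k1 k2 c d
    have a := S.wrap ht h1 h2 rfl k1 d (S.sub _ h3) rfl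
    rw [k1, k2] at c
    have b := S.a2 _ h2 _ (S.sub _ h4) rfl (lt_of_card (S.top ht h2) c)
    have : (p, q') ∈ Slot H h u t (p', q') := ⟨h2, b, S.top ht h4⟩
    rw [← k2] at this
    exact absurd this.2.1 (not_lt.2 a.le)
  have aux2 : ∀ p p', (p, q) ∈ H → (p, q') ∈ H → (p', q) ∈ H → (p', q') ∈ H →
      Slot H h u t (p, q) = Slot H h u t (p, q') → Slot H h u t (p', q) = Slot H h u t (p', q') →
      (Slot H h u t (p, q)).ncard < (Slot H h u t (p', q)).ncard → q = q' := by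
    intro p p' h1 h2 h3 h4 k1 k2 c
    rcases lt_trichotomy (h (p, q)) (h (p, q')) with d | d | d
    · exact (aux p p' q' q h2 h1 h4 h3 k1.symm k2.symm (by rwa [← k1, ← k2]) d).elim
    · exact (Prod.mk.inj (S.inj1 _ (S.sub _ h1) _ (S.sub _ h2) rfl d)).2
    · exact (aux p p' q q' h1 h2 h3 h4 k1 k2 c d).elim
  rcases lt_trichotomy (Slot H h u t (p, q)).ncard (Slot H h u t (p', q)).ncard with c | c | c
  · exact Or.inr (aux2 p p' h1 h2 h3 h4 k1 k2 c)
  · exact Or.inl (Prod.mk.inj (S.c1 ht h1 h3 rfl c)).1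
  · exact Or.inr (aux2 p' p h3 h4 h1 h2 k2 k1 c)

lemma Dense.right' {L R : Finset ι} {s : ℕ} (hD : Dense L R B s) {A : Finset ι}
    (hA : A ⊆ L) (hs : s ≤ A.card) :
    ∃ Q : Finset ι, Q.card < s ∧ ∀ b ∈ R, b ∉ Q → ∃ a ∈ A, (a, b) ∈ B := by
  refine ⟨_, hD.right hA hs, fun b hb k => ?_⟩
  by_contra c
  push Not at c
  exact k (mem_filter.2 ⟨hb, c⟩)

lemma card_le_fst [Fintype ι] (T : Finset (ι × ι))
    (k : ∀ e ∈ T, ∀ e' ∈ T, e.1 = e'.1 → e = e') : T.card ≤ Fintype.card ι := by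
  rw [← card_univ]
  exact card_le_card_of_injOn Prod.fst (fun _ _ => mem_coe.2 (mem_univ _))
    (fun e he e' he' c => k e he e' he' c)

lemma card_le_snd [Fintype ι] (T : Finset (ι × ι))
    (k : ∀ e ∈ T, ∀ e' ∈ T, e.2 = e'.2 → e = e') : T.card ≤ Fintype.card ι := by
  rw [← card_univ]
  exact card_le_card_of_injOn Prod.snd (fun _ _ => mem_coe.2 (mem_univ _))
    (fun e he e' he' c => k e he e' he' c)

theorem abs_bound [Fintype ι] (S : Sys B H h u) {L R : Finset ι} {s : ℕ} (hs : 1 ≤ s)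
    (hD : Dense L R B s) (hLR : ∀ e ∈ B, e.1 ∈ L ∧ e.2 ∈ R) :
    H.card ≤ 5 * Fintype.card ι + 80 * s ^ 6 := by
  rcases H.eq_empty_or_nonempty with h0 | h0
  · simp [h0]
  obtain ⟨e0, he0, ht⟩ := exists_max_image H u h0
  set t := u e0 with htd
  have hx : ∀ e : ι × ι, ∃ f : ι → Prop, e ∈ H →
      ∀ g ∈ B, ((f g.1 ↔ f g.2) ↔ (h g < u e ↔ h g < t)) := by
    intro e
    by_cases k : e ∈ H
    · obtain ⟨f, hf⟩ := S.c e k e0 he0
      exact ⟨f, fun _ => hf⟩
    · exact ⟨fun _ => True, fun a => absurd a k⟩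
  choose f hf using hx
  set F : ι → Set (ι × ι) := fun i => {e | e ∈ H ∧ f e i} with hFd
  have hF : ∀ g ∈ B, symmDiff (F g.1) (F g.2) = Slot H h u t g := by
    intro g hg
    ext e
    simp only [Set.mem_symmDiff, hFd, Slot, Set.mem_ofPred_eq]
    by_cases k : e ∈ H
    · have a := hf e k g hg
      have b : u e < h g ↔ ¬ h g < u e :=
        ⟨fun c => not_lt.2 c.le, fun c => lt_of_le_of_ne (not_lt.1 c) (S.ne e k g hg)⟩
      have c : h g < u e → h g < t := fun c => c.trans_le (ht e k)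
      rw [b]
      tauto
    · simp [k]
  have hF' : ∀ p q, (p, q) ∈ B → Slot H h u t (p, q) = symmDiff (F p) (F q) :=
    fun p q k => (hF _ k).symm
  have hFC : ∀ g ∈ B, symmDiff (F g.1) (F g.2) ∈ Slot H h u t '' B :=
    fun g hg => ⟨g, hg, (hF g hg).symm⟩
  have c1 : ∀ e ∈ H, ∀ e' ∈ H, e.2 = e'.2 → F e.1 = F e'.1 → e = e' := by
    intro e he e' he' k k'
    refine S.c1 ht he he' k ?_
    rw [← hF e (S.sub _ he), ← hF e' (S.sub _ he'), k, k']
  have c2 : ∀ p p' q q', (p, q) ∈ H → (p, q') ∈ H → (p', q) ∈ H → (p', q') ∈ H → F q = F q' →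
      p = p' ∨ q = q' := by
    intro p p' q q' h1 h2 h3 h4 k
    refine S.c2 ht h1 h2 h3 h4 ?_ ?_
    · rw [hF' _ _ (S.sub _ h1), hF' _ _ (S.sub _ h2), k]
    · rw [hF' _ _ (S.sub _ h3), hF' _ _ (S.sub _ h4), k]
  have K1 : ∀ p p', p ≠ p' → (univ.filter (fun q => (p, q) ∈ H ∧ (p', q) ∈ H)).card ≤ 2 := by
    intro p p' k
    obtain ⟨b1, b2, hb⟩ := two_nbrs (slot_chain (B := B) (H := H) (h := h) (u := u) (t := t))
      (F p) (F p')
    refine three_of_card F b1 b2 (fun q hq => ?_) (fun q hq q' hq' c => ?_)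
    · obtain ⟨_, q1, q2⟩ := mem_filter.1 hq
      exact hb (fun c => k (Prod.mk.inj (c1 _ q1 _ q2 rfl c)).1) _ (hFC _ (S.sub _ q1))
        (hFC _ (S.sub _ q2))
    · obtain ⟨_, q1, q2⟩ := mem_filter.1 hq
      obtain ⟨_, q3, q4⟩ := mem_filter.1 hq'
      exact (c2 p p' q q' q1 q3 q2 q4 c).resolve_left k
  have K2 : ∀ q q', q ≠ q' → (univ.filter (fun p => (p, q) ∈ H ∧ (p, q') ∈ H)).card ≤ 2 := by
    intro q q' k
    by_cases c : F q = F q'
    · refine le_trans (card_le_one.2 (fun p hp p' hp' => ?_)) one_le_two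
      obtain ⟨_, q1, q2⟩ := mem_filter.1 hp
      obtain ⟨_, q3, q4⟩ := mem_filter.1 hp'
      exact (c2 p p' q q' q1 q2 q3 q4 c).resolve_right k
    obtain ⟨b1, b2, hb⟩ := two_nbrs (slot_chain (B := B) (H := H) (h := h) (u := u) (t := t))
      (F q) (F q')
    refine three_of_card F b1 b2 (fun p hp => ?_) (fun p hp p' hp' d => ?_)
    · obtain ⟨_, q1, q2⟩ := mem_filter.1 hp
      have a1 := hFC _ (S.sub _ q1)
      have a2 := hFC _ (S.sub _ q2)
      rw [symmDiff_comm] at a1 a2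
      exact hb c _ a1 a2
    · obtain ⟨_, q1, _⟩ := mem_filter.1 hp
      obtain ⟨_, q3, _⟩ := mem_filter.1 hp'
      exact (Prod.mk.inj (c1 _ q1 _ q3 rfl d)).1
  have s1 : s ≤ s ^ 3 := by nlinarith [Nat.mul_le_mul hs hs, Nat.pow_le_pow_left hs 2]
  have s6 : s ^ 6 = (s ^ 3) ^ 2 := by ring
  set n := Fintype.card ι with hn
  rcases struct slot_chain hs hD F hFC with ⟨a1, a2, ha⟩ | ⟨b, hb⟩
  · have e1 := codeg H (L.filter (fun p => F p ≠ a1 ∧ F p ≠ a2)) K1
    have e2 : ∀ a, (H.filter (fun e => F e.1 = a)).card ≤ n := fun a =>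
      card_le_snd _ (fun e he e' he' k => c1 e (mem_filter.1 he).1 e' (mem_filter.1 he').1 k
        ((mem_filter.1 he).2.trans (mem_filter.1 he').2.symm))
    have hsub : H ⊆ H.filter (fun e => e.1 ∈ L.filter (fun p => F p ≠ a1 ∧ F p ≠ a2)) ∪
        (H.filter (fun e => F e.1 = a1) ∪ H.filter (fun e => F e.1 = a2)) := by
      intro e he
      have := (hLR e (S.sub _ he)).1
      simp only [mem_union, mem_filter]
      tauto
    have e3 := (card_le_card hsub).trans ((card_union_le _ _).trans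
      (Nat.add_le_add_left (card_union_le _ _) _))
    have e4 := Nat.pow_le_pow_left ha 2
    have := e2 a1
    have := e2 a2
    nlinarith
  set σ : ι → ℕ := fun p => (symmDiff (F p) b).ncard with hσ
  have hσ' : ∀ g ∈ B, F g.2 = b → (Slot H h u t g).ncard = σ g.1 := by
    intro g hg k
    rw [← hF g hg, k]
  obtain ⟨k1, x1, y1⟩ := cut L σ s hs
  obtain ⟨k2, x2, y2⟩ := cut (L.filter (fun p => σ p < k1)) σ s hs
  set A1 := L.filter (fun p => k1 ≤ σ p) with hA1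
  set A2 := (L.filter (fun p => σ p < k1)).filter (fun p => k2 ≤ σ p) with hA2
  obtain ⟨Q, hQ, hQ'⟩ : ∃ Q : Finset ι, Q.card ≤ 6 * s ^ 3 ∧ ∀ q ∈ R, q ∉ Q → F q = b ∧
      (k1 ≠ 0 → k2 ≠ 0 → (∃ a ∈ A1, (a, q) ∈ B) ∧ ∃ a ∈ A2, (a, q) ∈ B) := by
    by_cases k : k1 = 0 ∨ k2 = 0
    · refine ⟨R.filter (fun q => F q ≠ b), by omega, fun q q1 q2 => ⟨?_, by tauto⟩⟩
      by_contra c
      exact q2 (mem_filter.2 ⟨q1, c⟩)
    · push Not at k
      obtain ⟨Q1, r1, r3⟩ := hD.right' (A := A1) (filter_subset _ _) (y1.resolve_right k.1)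
      obtain ⟨Q2, r2, r4⟩ := hD.right' (A := A2) ((filter_subset _ _).trans (filter_subset _ _))
        (y2.resolve_right k.2)
      refine ⟨R.filter (fun q => F q ≠ b) ∪ (Q1 ∪ Q2), ?_, fun q q1 q2 => ?_⟩
      · refine (card_union_le _ _).trans ((Nat.add_le_add_left (card_union_le _ _) _).trans ?_)
        omega
      · simp only [mem_union, mem_filter, not_or, not_not, q1, true_and] at q2
        exact ⟨q2.1, fun _ _ => ⟨r3 q q1 q2.2.1, r4 q q1 q2.2.2⟩⟩
  set P := L.filter (fun p => k1 < σ p) ∪ (L.filter (fun p => σ p < k1)).filter (fun p => k2 < σ p)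
    with hP
  have hPc : P.card ≤ 2 * s := by
    refine (card_union_le _ _).trans ?_
    omega
  have e1 := codeg H P K1
  have e2 := codeg' H Q K2
  have e3 : ∀ k, (H.filter (fun e => e.2 ∉ Q ∧ σ e.1 = k)).card ≤ n := fun k =>
    card_le_snd _ (fun e he e' he' c => by
      obtain ⟨b1, b2, b3⟩ := mem_filter.1 he
      obtain ⟨b4, b5, b6⟩ := mem_filter.1 he'
      refine S.c1 ht b1 b4 c ?_
      rw [hσ' e (S.sub _ b1) (hQ' _ (hLR _ (S.sub _ b1)).2 b2).1,
        hσ' e' (S.sub _ b4) (hQ' _ (hLR _ (S.sub _ b4)).2 b5).1, b3, b6])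
  have e4 : (H.filter (fun e => e.2 ∉ Q ∧ σ e.1 < k1 ∧ σ e.1 < k2)).card ≤ n := by
    have aux : ∀ e ∈ H.filter (fun e => e.2 ∉ Q ∧ σ e.1 < k1 ∧ σ e.1 < k2),
        ∀ e' ∈ H.filter (fun e => e.2 ∉ Q ∧ σ e.1 < k1 ∧ σ e.1 < k2), e.1 = e'.1 →
        ¬ h e' < h e := by
      intro e he e' he' c d
      obtain ⟨b1, b2, b3, b4⟩ := mem_filter.1 he
      obtain ⟨b5, b6, b7, b8⟩ := mem_filter.1 he'
      obtain ⟨f1, f2⟩ := hQ' _ (hLR _ (S.sub _ b1)).2 b2
      obtain ⟨f3, f4⟩ := hQ' _ (hLR _ (S.sub _ b5)).2 b6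
      obtain ⟨a, ha, g1⟩ := (f2 (by omega) (by omega)).1
      obtain ⟨a', ha', g2⟩ := (f4 (by omega) (by omega)).2
      have w := S.wrap ht b1 b5 c (by
        rw [← hF e (S.sub _ b1), ← hF e' (S.sub _ b5), c, f1, f3]) d g1 rfl
      have i1 := hσ' e' (S.sub _ b5) f3
      have i2 := hσ' _ g2 f3
      have i3 := hσ' _ g1 f1
      have j1 := (mem_filter.1 ha).2
      have j2 := (mem_filter.1 ha').2
      have j3 := (mem_filter.1 (mem_filter.1 ha').1).2
      simp only at i2 i3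
      have l1 : h e' < h (a', e'.2) := lt_of_card (H := H) (u := u) (S.top ht b5) (by omega)
      have l0 : h (a', e'.2) < t := by
        obtain ⟨v, hv⟩ := (Set.ncard_pos (slot_fin (H := H) (h := h) (u := u) (t := t)
          (a', e'.2))).1 (by omega)
        exact hv.2.2
      have l2 : h (a', e'.2) < h (a, e.2) := lt_of_card (H := H) (u := u) l0 (by omega)
      have l3 := S.a2 e' b5 _ g2 rfl l1
      linarith
    refine card_le_fst _ (fun e he e' he' c => ?_)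
    exact S.inj1 e (S.sub _ (mem_filter.1 he).1) e' (S.sub _ (mem_filter.1 he').1) c
      (le_antisymm (not_lt.1 (aux e he e' he' c)) (not_lt.1 (aux e' he' e he c.symm)))
  have hsub : H ⊆ (H.filter (fun e => e.1 ∈ P) ∪ H.filter (fun e => e.2 ∈ Q)) ∪
      ((H.filter (fun e => e.2 ∉ Q ∧ σ e.1 = k1) ∪ H.filter (fun e => e.2 ∉ Q ∧ σ e.1 = k2)) ∪
      H.filter (fun e => e.2 ∉ Q ∧ σ e.1 < k1 ∧ σ e.1 < k2)) := by
    intro e he
    have := (hLR e (S.sub _ he)).1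
    simp only [mem_union, mem_filter, hP, he, this, true_and]
    by_cases c : e.2 ∈ Q
    · simp [c]
    · simp only [c, not_false_eq_true, true_and, or_false]
      omega
  have e5 := (card_le_card hsub).trans ((card_union_le _ _).trans (Nat.add_le_add
    (card_union_le _ _) ((card_union_le _ _).trans (Nat.add_le_add_right (card_union_le _ _) _))))
  have e6 := Nat.pow_le_pow_left hQ 2
  have e7 := Nat.pow_le_pow_left (hPc.trans (Nat.mul_le_mul_left 2 s1)) 2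
  have := e3 k1
  have := e3 k2
  nlinarith

end Pool.Agent.Lib.MP_5bf547_lin
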