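import Mathlib
import Pool.Agent.Lib.MP_5bf547_co.Bdry
import Pool.Agent.Lib.MP_5bf547_lin.Abs

/-! A face of a dense separated bipartite drawing touches only linearly many edges. -/

namespace Pool.Agent.Lib.MP_5bf547_lin

open Classical Finset Pool.Agent.Lib.MP_5bf547_co

/-- height of the line `a b` at abscissa `x` -/
noncomputable def ln (a b : Pt) (x : ℝ) : ℝ := a.2 + (b.2 - a.2) / (b.1 - a.1) * (x - a.1)

lemma ori_ln {a b : Pt} (hab : a.1 < b.1) (z : Pt) :
    ori a b z = (b.1 - a.1) * (z.2 - ln a b z.1) := ori_eq_foot hab z z rfl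

lemma ori_pos {a b : Pt} (hab : a.1 < b.1) (z : Pt) : 0 < ori a b z ↔ ln a b z.1 < z.2 := by
  rw [ori_ln hab, mul_pos_iff_of_pos_left (by linarith), sub_pos]

lemma ori_zero {a b : Pt} (hab : a.1 < b.1) (z : Pt) : ori a b z = 0 ↔ z.2 = ln a b z.1 := by
  rw [ori_ln hab, mul_eq_zero, sub_eq_zero, sub_eq_zero]
  exact ⟨fun h => h.resolve_left hab.ne', Or.inr⟩

lemma ln_left (a b : Pt) : ln a b a.1 = a.2 := by simp [ln]

lemma ln_right {a b : Pt} (hab : a.1 < b.1) : ln a b b.1 = b.2 := by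
  have : b.1 - a.1 ≠ 0 := by linarith
  simp only [ln]; field_simp; ring

lemma ln_aff (a b : Pt) (x1 x2 x : ℝ) :
    (x2 - x1) * ln a b x = (x2 - x) * ln a b x1 + (x - x1) * ln a b x2 := by
  simp only [ln]; ring

lemma cmp_between {a b a' b' : Pt} {c x x2 : ℝ} (h1 : c ≤ x) (h2 : x < x2)
    (k1 : ln a b c < ln a' b' c) (k2 : ln a b x2 ≤ ln a' b' x2) : ln a b x < ln a' b' x := by
  have e1 := ln_aff a b c x2 x
  have e2 := ln_aff a' b' c x2 x
  have : 0 < (x2 - c) * (ln a' b' x - ln a b x) := by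
    nlinarith [mul_pos (sub_pos.2 h2) (sub_pos.2 k1), mul_nonneg (sub_nonneg.2 h1) (sub_nonneg.2 k2)]
  have := (mul_pos_iff_of_pos_left (by linarith)).1 this
  linarith

lemma cmp_beyond {a b a' b' : Pt} {x0 c x : ℝ} (h1 : x0 < c) (h2 : c ≤ x)
    (k1 : ln a b x0 = ln a' b' x0) (k2 : ln a b c < ln a' b' c) : ln a b x < ln a' b' x := by
  have e1 := ln_aff a b x0 c x
  have e2 := ln_aff a' b' x0 c x
  have : 0 < (c - x0) * (ln a' b' x - ln a b x) := by
    rw [k1] at e1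
    nlinarith [mul_pos (show 0 < x - x0 by linarith) (sub_pos.2 k2)]
  have := (mul_pos_iff_of_pos_left (by linarith)).1 this
  linarith

lemma cmp_eq {a b a' b' : Pt} {x1 x2 : ℝ} (h : x1 < x2) (k1 : ln a b x1 = ln a' b' x1)
    (k2 : ln a b x2 = ln a' b' x2) (x : ℝ) : ln a b x = ln a' b' x := by
  have e1 := ln_aff a b x1 x2 x
  have e2 := ln_aff a' b' x1 x2 x
  rw [k1, k2, ← e2] at e1
  exact mul_left_cancel₀ (by linarith) e1

lemma be_line {a b z : Pt} (h1 : a.1 < z.1) (h2 : z.1 < b.1) : Be a b z ↔ ln a b z.1 < z.2 := by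
  rw [Be_of_lx (Or.inl (h1.trans h2)), ori_pos (h1.trans h2)]
  exact ⟨fun h => h.2.2, fun h => ⟨Or.inl h1, Or.inl h2, h⟩⟩

lemma ind_iff {P Q P' Q' : Prop} (h : ind P + ind Q = ind P' + ind Q') :
    ((P ↔ Q) ↔ (P' ↔ Q')) := by
  by_cases a : P <;> by_cases b : Q <;> by_cases c : P' <;> by_cases d : Q' <;>
    simp only [ind, a, b, c, d, if_true, if_false] at h ⊢ <;> first | decide | (exact absurd h (by decide))

lemma zmod_iff {x y : ZMod 2} {P Q : Prop} (h : x + y = ind P + ind Q) :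
    ((x = 1 ↔ y = 1) ↔ (P ↔ Q)) := by
  have k : ∀ x : ZMod 2, x = ind (x = 1) := by
    intro x
    by_cases c : x = 1
    · rw [ind_true c, c]
    · rw [ind_false c]
      revert c; revert x; decide
  rw [k x, k y] at h
  exact ind_iff h

variable {n : ℕ} {p : Fin n → Pt} {B : Set (Fin n × Fin n)} {z0 : Pt} {c : ℝ}

variable (p B c) in
/-- all edges cross the vertical line at `c` -/
def Sep : Prop := ∀ e ∈ B, (p e.1).1 < c ∧ c < (p e.2).1

lemma Sep.ord (h : Sep p B c) : Ordered p B := fun e he => (h e he).1.trans (h e he).2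

variable (p B z0) in
structure Tch (e : Fin n × Fin n) (w y : Pt) : Prop where
  mem : e ∈ B
  r : w.1 < (p e.2).1
  on : ori (p e.1) (p e.2) w = 0
  gen : ∀ i, w.1 ≠ (p i).1
  vx : y.1 = w.1
  vy : w.2 < y.2
  fr : ∀ q : Pt, q.1 = w.1 → w.2 < q.2 → q.2 ≤ y.2 → q ∈ Free p B
  fc : y ∈ Face p B z0

lemma Tch.be (hS : Sep p B c) {e g : Fin n × Fin n} {w y : Pt} (T : Tch p B z0 e w y)
    (hc : c ≤ w.1) (hg : g ∈ B) : Be (p g.1) (p g.2) y ↔
      w.1 < (p g.2).1 ∧ ln (p g.1) (p g.2) w.1 ≤ ln (p e.1) (p e.2) w.1 := by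
  have hab := hS.ord g hg
  have h1 := (hS g hg).1
  rw [← (ori_zero (hS.ord e T.mem) w).1 T.on, Be_of_lx (Or.inl hab), ori_pos hab, T.vx]
  constructor
  · rintro ⟨_, k2, k3⟩
    have k4 : w.1 < (p g.2).1 := lt_of_le_of_ne (T.vx ▸ lx_le k2) (T.gen _)
    refine ⟨k4, ?_⟩
    by_contra k
    refine (T.fr (w.1, ln (p g.1) (p g.2) w.1) rfl (not_le.1 k) k3.le).2 g hg ?_
    exact mem_seg_of_on hab (by simp only; linarith) k4.le ((ori_zero hab _).2 rfl)
  · rintro ⟨k1, k2⟩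
    exact ⟨Or.inl (by rw [T.vx]; linarith), Or.inl (by rw [T.vx]; exact k1), k2.trans_lt T.vy⟩

variable (p B z0 c) in
/-- the part of the face on the right of the line -/
def FR : Set Pt := {z | z ∈ Face p B z0 ∧ c ≤ z.1}

lemma right_par (hS : Sep p B c) (h0 : z0 ∈ Free p B) {y y' : Pt} (hy : c ≤ y.1) (hy' : c ≤ y'.1)
    (hc : Conn (FR p B z0 c) y y') {g g' : Fin n × Fin n} (hg : g ∈ B) (hg' : g' ∈ B)
    (k : g.2 = g'.2) : ((Be (p g.1) (p g.2) y ↔ Be (p g.1) (p g.2) y') ↔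
      (Be (p g'.1) (p g'.2) y ↔ Be (p g'.1) (p g'.2) y')) := by
  obtain ⟨f, _, hf, _⟩ := exists_par hc
  have d : ∀ g ∈ B, Disjoint (FR p B z0 c) (segment ℝ (p g.1) (p g.2)) := fun g hg =>
    Set.disjoint_left.2 (fun z hz => (face_free h0 hz.1).2 g hg)
  have a1 := (hS g hg).1
  have a2 := (hS g' hg').1
  have e : f (p g.1) + f (p g'.1) = 0 := by
    rw [hf _ _ (Set.disjoint_left.2 (fun z hz hm => ?_)),
      ind_false (Be_out (Or.inr ⟨Or.inl (by linarith), Or.inl (by linarith)⟩)),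
      ind_false (Be_out (Or.inr ⟨Or.inl (by linarith), Or.inl (by linarith)⟩)), add_zero]
    obtain ⟨t, t0, t1, e1, _⟩ := mem_seg_iff.1 hm
    have := cc_gt t0 t1 a1 a2
    linarith [hz.2]
  apply ind_iff
  rw [← hf _ _ (d g hg), ← hf _ _ (d g' hg'), k]
  have := two0 (f (p g'.1))
  linear_combination e - this

lemma dich {y : Pt} (hy : y ∈ Face p B z0) (hc : c ≤ y.1) :
    (∃ u : Pt, u.1 = c ∧ Conn (FR p B z0 c) y u) ∨
      ∀ z ∈ Face p B z0, Conn (FR p B z0 c) y z := by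
  by_cases h : ∃ u : Pt, u.1 = c ∧ Conn (FR p B z0 c) y u
  · exact Or.inl h
  right
  have key : ∀ z, Conn (Free p B) y z → c ≤ z.1 ∧ Conn (FR p B z0 c) y z := by
    intro z hz
    induction hz with
    | refl => exact ⟨hc, Conn.refl _ _⟩
    | @tail b d h1 h2 ih =>
      have hb : b ∈ Face p B z0 := Conn.trans hy h1
      have sub : ∀ v ∈ segment ℝ b d, c ≤ v.1 → segment ℝ b v ⊆ FR p B z0 c := by
        intro v hv k q hq
        refine ⟨face_seg hb h2 (seg_sub (left_mem_segment _ _ _) hv hq), ?_⟩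
        obtain ⟨t, t0, t1, e1, _⟩ := mem_seg_iff.1 hq
        nlinarith [mul_nonneg t0 (sub_nonneg.2 k), mul_nonneg (sub_nonneg.2 t1) (sub_nonneg.2 ih.1)]
      by_cases k : c ≤ d.1
      · exact ⟨k, ih.2.trans (Conn.single (sub d (right_mem_segment _ _ _) k))⟩
      · exfalso
        push Not at k
        have hbd : 0 < b.1 - d.1 := by linarith [ih.1]
        have e : b.1 + (b.1 - c) / (b.1 - d.1) * (d.1 - b.1) = c := by field_simp; ring
        refine h ⟨(c, b.2 + (b.1 - c) / (b.1 - d.1) * (d.2 - b.2)), rfl,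
          ih.2.trans (Conn.single (sub _ (mem_seg_iff.2 ⟨(b.1 - c) / (b.1 - d.1),
            div_nonneg (by linarith [ih.1]) hbd.le, by rw [div_le_one hbd]; linarith, e.symm, rfl⟩)
            le_rfl))⟩
  intro z hz
  exact (key z ((Conn.symm hy).trans hz)).2

variable (p B z0 c) in
/-- edges touched from above on the right of the line -/
noncomputable def TopR : Finset (Fin n × Fin n) :=
  univ.filter (fun e => ∃ w y, Tch p B z0 e w y ∧ c ≤ w.1)

theorem topR_card (hS : Sep p B c) (h0 : z0 ∈ Free p B) (hG : Gen p) {L R : Finset (Fin n)}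
    {s : ℕ} (hs : 1 ≤ s) (hD : Dense L R B s) (hLR : ∀ e ∈ B, e.1 ∈ L ∧ e.2 ∈ R) :
    (TopR p B z0 c).card ≤ 6 * n + 80 * s ^ 6 := by
  have hx : ∀ e : Fin n × Fin n, ∃ w y, e ∈ TopR p B z0 c → Tch p B z0 e w y ∧ c ≤ w.1 := by
    intro e
    by_cases k : e ∈ TopR p B z0 c
    · obtain ⟨w, y, k⟩ := (mem_filter.1 k).2
      exact ⟨w, y, fun _ => k⟩
    · exact ⟨0, 0, fun a => absurd a k⟩
  choose w y hw using hx
  set h : Fin n × Fin n → ℝ := fun g => ln (p g.1) (p g.2) c with hh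
  have inj1 : ∀ g ∈ B, ∀ g' ∈ B, g.1 = g'.1 → h g = h g' → g = g' := by
    intro g hg g' hg' k k'
    by_contra ne
    have n2 : g.2 ≠ g'.2 := fun a => ne (Prod.ext k a)
    have o := hS.ord g hg
    have o' := hS.ord g' hg'
    have e := cmp_eq (a := p g.1) (b := p g.2) (a' := p g'.1) (b' := p g'.2) (hS g hg).1
      (by rw [ln_left, k, ln_left]) k' (p g'.2).1
    rw [ln_right o'] at e
    refine hG.col g.1 g.2 g'.2 (fun a => ?_) (fun a => ?_) n2 ((ori_zero o _).2 e.symm)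
    · rw [a] at o; exact lt_irrefl _ o
    · rw [← k, a] at o'; exact lt_irrefl _ o'
  have inj2 : ∀ g ∈ B, ∀ g' ∈ B, g.2 = g'.2 → h g = h g' → g = g' := by
    intro g hg g' hg' k k'
    by_contra ne
    have n2 : g.1 ≠ g'.1 := fun a => ne (Prod.ext a k)
    have o := hS.ord g hg
    have o' := hS.ord g' hg'
    have e := cmp_eq (a := p g.1) (b := p g.2) (a' := p g'.1) (b' := p g'.2) (hS g hg).2
      k' (by rw [ln_right o, k, ln_right o']) (p g'.1).1
    rw [ln_left] at e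
    refine hG.col g.1 g.2 g'.1 (fun a => ?_) n2 (fun a => ?_) ((ori_zero o _).2 e.symm)
    · rw [a] at o; exact lt_irrefl _ o
    · rw [← k, a] at o'; exact lt_irrefl _ o'
  have self : ∀ e ∈ TopR p B z0 c, Be (p e.1) (p e.2) (y e) := fun e he =>
    ((hw e he).1.be hS (hw e he).2 (hw e he).1.mem).2 ⟨(hw e he).1.r, le_rfl⟩
  have above : ∀ e ∈ TopR p B z0 c, ∀ g ∈ B, g.2 = e.2 → h e < h g →
      ¬ Be (p g.1) (p g.2) (y e) := by
    intro e he g hg k k'
    obtain ⟨T, hc⟩ := hw e he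
    rw [T.be hS hc hg]
    rintro ⟨_, b⟩
    refine absurd b (not_le.2 (cmp_between hc T.r k' (le_of_eq ?_)))
    rw [ln_right (hS.ord e T.mem), ← k, ln_right (hS.ord g hg)]
  have below : ∀ e ∈ TopR p B z0 c, ∀ g ∈ B, g.2 = e.2 → h g < h e →
      Be (p g.1) (p g.2) (y e) := by
    intro e he g hg k k'
    obtain ⟨T, hc⟩ := hw e he
    rw [T.be hS hc hg]
    refine ⟨k ▸ T.r, (cmp_between hc T.r k' (le_of_eq ?_)).le⟩
    rw [ln_right (hS.ord e T.mem), ← k, ln_right (hS.ord g hg)]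
  have yc : ∀ e ∈ TopR p B z0 c, c ≤ (y e).1 := fun e he => by
    rw [(hw e he).1.vx]; exact (hw e he).2
  have mB : ∀ e ∈ TopR p B z0 c, e ∈ B := fun e he => (hw e he).1.mem
  by_cases hu : ∀ e ∈ TopR p B z0 c, ∃ u : Pt, u.1 = c ∧ Conn (FR p B z0 c) (y e) u
  swap
  · push Not at hu
    obtain ⟨e0, he0, k0⟩ := hu
    have all := (dich (hw e0 he0).1.fc (yc e0 he0)).resolve_left (fun ⟨u, a, b⟩ => k0 u a b)
    have aux : ∀ e ∈ TopR p B z0 c, ∀ e' ∈ TopR p B z0 c, e.2 = e'.2 → ¬ h e < h e' := by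
      intro e he e' he' k k'
      have := right_par hS h0 (yc e he) (yc e' he')
        ((all _ (hw e he).1.fc).symm.trans (all _ (hw e' he').1.fc)) (mB e he) (mB e' he') k
      have a1 := self e he
      have a2 := self e' he'
      have a3 := above e he e' (mB e' he') k.symm k'
      have a4 := below e' he' e (mB e he) k k'
      tauto
    have := card_le_snd (TopR p B z0 c) (fun e he e' he' k => inj2 e (mB e he) e' (mB e' he') k
      (le_antisymm (not_lt.1 (aux e' he' e he k.symm)) (not_lt.1 (aux e he e' he' k))))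
    rw [Fintype.card_fin] at this
    omega
  have hx : ∀ e : Fin n × Fin n, ∃ u : Pt, e ∈ TopR p B z0 c →
      u.1 = c ∧ Conn (FR p B z0 c) (y e) u := by
    intro e
    by_cases k : e ∈ TopR p B z0 c
    · obtain ⟨u, k⟩ := hu e k
      exact ⟨u, fun _ => k⟩
    · exact ⟨0, fun a => absurd a k⟩
  choose u hu using hx
  have uF : ∀ e ∈ TopR p B z0 c, u e ∈ Face p B z0 := fun e he =>
    ((hu e he).2.mem ⟨(hw e he).1.fc, yc e he⟩).1
  have ub : ∀ e ∈ TopR p B z0 c, ∀ g ∈ B, Be (p g.1) (p g.2) (u e) ↔ h g < (u e).2 := by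
    intro e he g hg
    rw [be_line (by rw [(hu e he).1]; exact (hS g hg).1) (by rw [(hu e he).1]; exact (hS g hg).2),
      (hu e he).1]
  have une : ∀ e ∈ TopR p B z0 c, ∀ g ∈ B, (u e).2 ≠ h g := by
    intro e he g hg k
    refine (face_free h0 (uF e he)).2 g hg (mem_seg_of_on (hS.ord g hg) ?_ ?_
      ((ori_zero (hS.ord g hg) _).2 ?_))
    · rw [(hu e he).1]; exact (hS g hg).1.le
    · rw [(hu e he).1]; exact (hS g hg).2.le
    · rw [(hu e he).1]; exact k
  have rp : ∀ e ∈ TopR p B z0 c, ∀ g ∈ B, ∀ g' ∈ B, g.2 = g'.2 →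
      ((Be (p g.1) (p g.2) (y e) ↔ h g < (u e).2) ↔
        (Be (p g'.1) (p g'.2) (y e) ↔ h g' < (u e).2)) := by
    intro e he g hg g' hg' k
    rw [← ub e he g hg, ← ub e he g' hg']
    exact right_par hS h0 (yc e he) (hu e he).1.ge (hu e he).2 hg hg' k
  have a12 : ∀ e ∈ TopR p B z0 c, ∀ g ∈ B, g.2 = e.2 → h e < h g →
      h e < (u e).2 ∧ (u e).2 < h g := by
    intro e he g hg k k'
    have a1 := rp e he e (mB e he) g hg k.symm
    have a2 := self e he
    have a3 := above e he g hg k k'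
    have a4 : h g < (u e).2 → h e < (u e).2 := fun a => k'.trans a
    have a5 : ¬ h g < (u e).2 := by tauto
    exact ⟨by tauto, lt_of_le_of_ne (not_lt.1 a5) (une e he g hg)⟩
  set H := (TopR p B z0 c).filter (fun e => ∃ g ∈ B, g.2 = e.2 ∧ h e < h g) with hH
  have HT : ∀ e ∈ H, e ∈ TopR p B z0 c := fun e he => (mem_filter.1 he).1
  have S : Sys B H h (fun e => (u e).2) := by
    refine ⟨fun e he => mB e (HT e he), inj1, inj2, fun e he => une e (HT e he), fun e he => ?_,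
      fun e he g hg k k' => (a12 e (HT e he) g hg k k').2, ?_, ?_⟩
    · obtain ⟨g, hg, k, k'⟩ := (mem_filter.1 he).2
      exact (a12 e (HT e he) g hg k k').1
    · intro e he g hg k k1 k2 g' hg' k3
      obtain ⟨T, hc⟩ := hw e (HT e he)
      have a1 := rp e (HT e he) g hg g' hg' k3.symm
      have up : ∀ x, c ≤ x → ln (p e.1) (p e.2) x < ln (p g.1) (p g.2) x := fun x hx =>
        cmp_beyond (hS g hg).1 hx (by rw [ln_left, k, ln_left]) k1
      have a2 : ¬ Be (p g.1) (p g.2) (y e) := by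
        rw [T.be hS hc hg]
        exact fun b => absurd b.2 (not_le.2 (up _ hc))
      by_contra a3
      have a4 : ¬ Be (p g'.1) (p g'.2) (y e) := by
        rw [T.be hS hc hg']
        rintro ⟨b1, b2⟩
        refine absurd b2 (not_le.2 (cmp_between hc b1 ((k1.trans k2).trans_le (not_lt.1 a3)) ?_))
        rw [ln_right (hS.ord g' hg'), k3, ← ln_right (hS.ord g hg)]
        exact (up _ (hS g hg).2.le).le
      tauto
    · intro e he e' he'
      obtain ⟨f, _, hf, _⟩ := exists_par (S := Free p B)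
        ((Conn.symm (uF e (HT e he))).trans (uF e' (HT e' he')))
      refine ⟨fun i => f (p i) = 1, fun g hg => ?_⟩
      rw [← ub e (HT e he) g hg, ← ub e' (HT e' he') g hg]
      exact zmod_iff (hf _ _ (Set.disjoint_left.2 (fun z hz => hz.2 g hg)))
  have b1 := abs_bound S hs hD hLR
  have b2 := card_le_snd ((TopR p B z0 c).filter (fun e => ¬ ∃ g ∈ B, g.2 = e.2 ∧ h e < h g))
    (fun e he e' he' k => by
      obtain ⟨i1, i2⟩ := mem_filter.1 he
      obtain ⟨i3, i4⟩ := mem_filter.1 he'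
      refine inj2 e (mB e i1) e' (mB e' i3) k (le_antisymm ?_ ?_)
      · exact not_lt.1 (fun a => i4 ⟨e, mB e i1, k, a⟩)
      · exact not_lt.1 (fun a => i2 ⟨e', mB e' i3, k.symm, a⟩))
  have b3 := card_filter_add_card_filter_not (s := TopR p B z0 c)
    (fun e => ∃ g ∈ B, g.2 = e.2 ∧ h e < h g)
  rw [Fintype.card_fin] at b1 b2
  rw [← hH] at b3
  omega

end Pool.Agent.Lib.MP_5bf547_lin
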