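import Mathlib
import Pool.Agent.Lib.MP_5bf547_co.Perturb
import Pool.Agent.Lib.MP_5bf547_lin.Geo

/-! Reflections: the whole boundary of a face of a dense separated drawing is linear. -/

namespace Pool.Agent.Lib.MP_5bf547_lin

open Classical Finset Pool.Agent.Lib.MP_5bf547_co

variable {n : ℕ} {p : Fin n → Pt} {B : Set (Fin n × Fin n)} {z0 : Pt} {c : ℝ}

/-- reflection in the vertical axis -/
def rx (z : Pt) : Pt := (-z.1, z.2)

lemma rx_rx (z : Pt) : rx (rx z) = z := by simp [rx]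

lemma rx_seg {a b z : Pt} (h : z ∈ segment ℝ a b) : rx z ∈ segment ℝ (rx a) (rx b) := by
  obtain ⟨t, h0, h1, e1, e2⟩ := mem_seg_iff.1 h
  exact mem_seg_iff.2 ⟨t, h0, h1, by simp only [rx, e1]; ring, e2⟩

lemma rx_free {z : Pt} (h : z ∈ Free p B) :
    rx z ∈ Free (fun i => rx (p i)) (Prod.swap ⁻¹' B) := by
  refine ⟨fun i e => h.1 i (by rw [← rx_rx z, e, rx_rx]), fun e he k => h.2 e.swap he ?_⟩
  rw [segment_symm]
  simpa only [rx_rx, Prod.fst_swap, Prod.snd_swap] using rx_seg k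

lemma rx_face {z : Pt} (h : z ∈ Face p B z0) :
    rx z ∈ Face (fun i => rx (p i)) (Prod.swap ⁻¹' B) (rx z0) := by
  induction h with
  | refl => exact Conn.refl _ _
  | @tail b c _ h2 ih =>
    refine Conn.trans ih (Conn.single (fun q hq => ?_))
    have := rx_seg hq
    rw [rx_rx, rx_rx] at this
    simpa only [rx_rx] using rx_free (h2 this)

lemma ori_rx (a b c : Pt) : ori (rx a) (rx b) (rx c) = -ori a b c := by
  simp only [ori, rx]; ring

lemma gen_rx (h : Gen p) : Gen (fun i => rx (p i)) :=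
  ⟨fun i j k => h.x i j (neg_injective k),
    fun i j k a b c => by rw [ori_rx]; exact neg_ne_zero.2 (h.col i j k a b c)⟩

theorem top_card (hS : Sep p B c) (h0 : z0 ∈ Free p B) (hG : Gen p) {L R : Finset (Fin n)}
    {s : ℕ} (hs : 1 ≤ s) (hD : Dense L R B s) (hLR : ∀ e ∈ B, e.1 ∈ L ∧ e.2 ∈ R) :
    (Top p B z0).ncard ≤ 2 * (6 * n + 80 * s ^ 6) := by
  have a1 := topR_card hS h0 hG hs hD hLR
  have a2 := topR_card (p := fun i => rx (p i)) (B := Prod.swap ⁻¹' B) (c := -c) (L := R) (R := L)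
    (fun e he => ⟨neg_lt_neg (hS _ he).2, neg_lt_neg (hS _ he).1⟩) (rx_free h0) (gen_rx hG) hs
    (fun A hA A' hA' k k' => by
      obtain ⟨a, ha, b, hb, hab⟩ := hD A' hA' A hA k' k
      exact ⟨b, hb, a, ha, hab⟩)
    (fun e he => (hLR _ he).symm)
  have hsub : Top p B z0 ⊆ ↑(TopR p B z0 c ∪
      (TopR (fun i => rx (p i)) (Prod.swap ⁻¹' B) (rx z0) (-c)).image Prod.swap) := by
    rintro e ⟨he, w, y, h1, h2, h3, h4, h5, h6, h7, h8⟩
    rw [mem_coe, mem_union]
    rcases le_total c w.1 with k | k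
    · exact Or.inl (mem_filter.2 ⟨mem_univ _, w, y, ⟨he, h2, h3, h4, h5, h6, h7, h8⟩, k⟩)
    · refine Or.inr (mem_image.2 ⟨e.swap, mem_filter.2 ⟨mem_univ _, rx w, rx y,
        ⟨he, neg_lt_neg h1, ?_, fun i a => h4 i (neg_injective a), congrArg Neg.neg h5, h6,
          fun q q1 q2 q3 => ?_, rx_face h8⟩, neg_le_neg k⟩, Prod.swap_swap e⟩)
      · rw [ori_rx]
        simp only [ori, Prod.fst_swap, Prod.snd_swap] at h3 ⊢
        linear_combination h3
      · have := rx_free (h7 (rx q) (by simp only [rx] at q1 ⊢; linarith) q2 q3)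
        rwa [rx_rx] at this
  have a3 := Set.ncard_le_ncard hsub (Finset.finite_toSet _)
  rw [Set.ncard_coe_finset] at a3
  have a4 := a3.trans ((card_union_le _ _).trans (Nat.add_le_add_left card_image_le _))
  omega

theorem bd_card (hS : Sep p B c) (h0 : z0 ∈ Free p B) (hG : Gen p) {L R : Finset (Fin n)}
    {s : ℕ} (hs : 1 ≤ s) (hD : Dense L R B s) (hLR : ∀ e ∈ B, e.1 ∈ L ∧ e.2 ∈ R) :
    (Bd p B z0).ncard ≤ 4 * (6 * n + 80 * s ^ 6) := by
  have a1 := top_card hS h0 hG hs hD hLR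
  have a2 := top_card (p := fun i => rf (p i)) (c := c) hS (rf_free h0) hG.rf hs hD hLR
  have a3 := Set.ncard_union_le (Top p B z0) (Top (fun i => rf (p i)) B (rf z0))
  unfold Bd
  omega

end Pool.Agent.Lib.MP_5bf547_lin
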