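import Mathlib
import Pool.Agent.Lib.MP_5bf547_co.Final
import Pool.Agent.Lib.MP_5bf547_lin.Refl

/-! Counting dense separated bipartite drawings whose non-edges are blocked by few faces. -/

namespace Pool.Agent.Lib.MP_5bf547_lin

open Classical Finset Pool.Agent.Lib.MP_5bf547_co SignType MvPolynomial Metric

section restrict
variable {n N : ℕ} (φ : Fin n → Fin N)

def mapK : KI n → KI N
  | .inl i => .inl (φ i)
  | .inr (.inl i) => .inr (.inl (φ i))
  | .inr (.inr e) => .inr (.inr (φ e.1, φ e.2))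

def mapL : LI n → LI N
  | .inl i => .inl (φ i)
  | .inr e => .inr (φ e.1, φ e.2)

lemma Phi_map (P : Fin N → Pt) (k : KI n) (z : Pt) :
    Phi (fun i => P (φ i)) k z = Phi P (mapK φ k) z := by
  rcases k with i | i | e <;> rfl

lemma al_map (P : Fin N → Pt) (l : LI n) (k : KI n) :
    al (fun i => P (φ i)) l k = al P (mapL φ l) (mapK φ k) := by
  rcases l with i | e <;> exact Phi_map φ P k _

lemma be_map (P : Fin N → Pt) (l : LI n) (k : KI n) :
    be (fun i => P (φ i)) l k = be P (mapL φ l) (mapK φ k) := by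
  rcases l with i | e <;> simp only [be, Phi_map] <;> rfl

lemma st_map {P P' : Fin N → Pt} (h : ST P P') : ST (fun i => P (φ i)) (fun i => P' (φ i)) := by
  rintro (x | x | x)
  · simp only [tp, al_map]
    exact h (.inl (_, _))
  · simp only [tp, be_map]
    exact h (.inr (.inl (_, _)))
  · simp only [tp, al_map, be_map]
    exact h (.inr (.inr (_, _, _)))

lemma sv_map {P P' : Fin N → Pt} {z z' : Pt} (h : SV P z P' z') :
    SV (fun i => P (φ i)) z (fun i => P' (φ i)) z' := by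
  intro k
  rw [Phi_map φ P, Phi_map φ P']
  exact h _

lemma gen_map {P : Fin N → Pt} (hφ : Function.Injective φ) (h : Gen P) : Gen (fun i => P (φ i)) :=
  ⟨fun _ _ k => hφ (h.x _ _ k),
    fun _ _ _ a b c => h.col _ _ _ (hφ.ne a) (hφ.ne b) (hφ.ne c)⟩

end restrict

variable {n h : ℕ}

/-- the vertices -/
def vp (x : Vr (n + h) → ℝ) : Fin n → Pt := fun i => cp x (Fin.castAdd h i)

/-- the marked points of the faces -/
def zp (x : Vr (n + h) → ℝ) (m : Fin h) : Pt := cp x (Fin.natAdd n m)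

lemma vp_gen {x : Vr (n + h) → ℝ} (hx : GX x) : Gen (vp x) :=
  gen_map (Fin.castAdd h) (Fin.castAdd_injective n h) hx.gen

lemma cast_ne (i : Fin n) (m : Fin h) : Fin.castAdd h i ≠ Fin.natAdd n m := by
  intro k
  have := congrArg Fin.val k
  simp only [Fin.val_castAdd, Fin.val_natAdd] at this
  omega

lemma zp_free {x : Vr (n + h) → ℝ} (hx : GX x) {B : Set (Fin n × Fin n)} (hB : Ordered (vp x) B)
    (m : Fin h) : zp x m ∈ Free (vp x) B := by
  refine ⟨fun i k => cast_ne i m (hx.gen.x _ _ (congrArg Prod.fst k).symm), fun e he k => ?_⟩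
  refine hx.gen.col (Fin.castAdd h e.1) (Fin.castAdd h e.2) (Fin.natAdd n m) (fun a => ?_)
    (cast_ne _ _) (cast_ne _ _) (ori_of_mem k)
  have := hB e he
  simp only [vp, a] at this
  exact lt_irrefl _ this

lemma face_mono {p : Fin n → Pt} {B B' : Set (Fin n × Fin n)} (k : B' ⊆ B) (z : Pt) :
    Face p B z ⊆ Face p B' z := fun _ hz => Conn.mono (free_mono k) hz

variable (h) in
/-- dense bipartite drawings whose non-edges are blocked by `h` faces -/
def Good (s : ℕ) (X Y : Finset (Fin n)) : Set (Set (Fin n × Fin n)) :=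
  {B | (∀ e ∈ B, e.1 ∈ X ∧ e.2 ∈ Y) ∧ Dense X Y B s ∧ ∃ x : Vr (n + h) → ℝ, GX x ∧ ∃ c : ℝ,
    (∀ a ∈ X, (vp x a).1 < c) ∧ (∀ b ∈ Y, c < (vp x b).1) ∧
    ∀ a ∈ X, ∀ b ∈ Y, (a, b) ∉ B → ∃ m, Blk (vp x) B (zp x m) a b}

lemma small_card {α : Type} (S : Finset α) (K : ℕ) :
    ({E : Set α | E ⊆ S ∧ E.ncard ≤ K}.ncard : ℝ) ≤ 4 ^ K * (5 / 4) ^ S.card := by
  have h1 : {E : Set α | E ⊆ S ∧ E.ncard ≤ K} ⊆
      (fun T : Finset α => (T : Set α)) '' ↑(S.powerset.filter (fun T => T.card ≤ K)) := by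
    rintro E ⟨a, b⟩
    have hf : E.Finite := S.finite_toSet.subset a
    refine ⟨hf.toFinset, mem_coe.2 (mem_filter.2 ⟨mem_powerset.2 (fun z hz => ?_), ?_⟩), by simp⟩
    · exact a (hf.mem_toFinset.1 hz)
    · rwa [← Set.ncard_eq_toFinset_card E hf]
  have h2 := (Set.ncard_le_ncard h1 ((Finset.finite_toSet _).image _)).trans
    (Set.ncard_image_le (Finset.finite_toSet _))
  rw [Set.ncard_coe_finset] at h2
  refine (Nat.cast_le.2 h2).trans ?_
  have h3 := Finset.sum_pow_mul_eq_add_pow (1 / 4 : ℝ) 1 S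
  simp only [one_pow, mul_one] at h3
  rw [show (5 / 4 : ℝ) = 1 / 4 + 1 by norm_num, ← h3, mul_sum, card_eq_sum_ones, Nat.cast_sum]
  refine le_trans (sum_le_sum (fun T hT => ?_))
    (sum_le_sum_of_subset_of_nonneg (filter_subset _ _) (fun _ _ _ => by positivity))
  obtain ⟨d, hd⟩ := Nat.exists_eq_add_of_le (mem_filter.1 hT).2
  rw [hd, pow_add, mul_right_comm, ← mul_pow]
  norm_num
  exact one_le_pow₀ (by norm_num)

theorem good_card {s : ℕ} (hs : 1 ≤ s) (X Y : Finset (Fin n)) :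
    (Good h s X Y).ncard ≤ (n + h + 2) ^ (26 * (n + h + 2)) *
      {E : Set (Fin n × Fin n) | E ⊆ ↑(X ×ˢ Y) ∧ E.ncard ≤ h * (4 * (6 * n + 80 * s ^ 6))}.ncard := by
  have hx : ∀ B : Set (Fin n × Fin n), ∃ (x : Vr (n + h) → ℝ) (c : ℝ), B ∈ Good h s X Y →
      GX x ∧ (∀ a ∈ X, (vp x a).1 < c) ∧ (∀ b ∈ Y, c < (vp x b).1) ∧
      ∀ a ∈ X, ∀ b ∈ Y, (a, b) ∉ B → ∃ m, Blk (vp x) B (zp x m) a b := by
    intro B
    by_cases k : B ∈ Good h s X Y
    · obtain ⟨_, _, x, a, c, k⟩ := k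
      exact ⟨x, c, fun _ => ⟨a, k⟩⟩
    · exact ⟨0, 0, fun a => absurd a k⟩
  choose x c hx using hx
  refine le_trans ?_ (Nat.mul_le_mul_right _
    ((warren (tq (MvPolynomial.X : Vr (n + h) → MvPolynomial (Vr (n + h)) ℝ)) 4 deg_tq).trans
      (types_bound (n + h))))
  refine ncard_le_mul (Set.toFinite _) (fun B t => sign (eval (x B) (tq MvPolynomial.X t)))
    (fun B hB => ?_) _ ?_
  · exact ⟨x B, (hx B hB).1, rfl⟩
  rintro _ ⟨y, hy, rfl⟩
  let E : Set (Fin n × Fin n) → Set (Fin n × Fin n) := fun B => ⋃ m, Bd (vp (x B)) B (zp (x B) m)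
  have key : ∀ B ∈ Good h s X Y, (fun t => sign (eval (x B) (tq MvPolynomial.X t))) =
      (fun t => sign (eval y (tq MvPolynomial.X t))) →
      (E B ⊆ ↑(X ×ˢ Y) ∧ (E B).ncard ≤ h * (4 * (6 * n + 80 * s ^ 6))) ∧
      ∀ a ∈ X, ∀ b ∈ Y, ((a, b) ∈ B ↔ ¬ ∃ m, Blk (vp y) (E B) (zp y m) a b) := by
    intro B hB e
    obtain ⟨a1, a2, a3, a4⟩ := hx B hB
    have hS : Sep (vp (x B)) B (c B) := fun e he => ⟨a2 _ (hB.1 e he).1, a3 _ (hB.1 e he).2⟩
    have hg := vp_gen a1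
    have hEB : E B ⊆ B := Set.iUnion_subset (fun m => bd_sub)
    have hst0 : ST (cp (x B)) (cp y) := fun t => by
      have := congrFun e (.inl t)
      simp only [eval_tq] at this
      exact this
    have hst : ST (vp (x B)) (vp y) := st_map (Fin.castAdd h) hst0
    have hsv : ∀ m, SV (vp (x B)) (zp (x B) m) (vp y) (zp y m) := fun m =>
      sv_map (Fin.castAdd h) (hst0.pts (Fin.natAdd n m))
    have o : Ordered (vp (x B)) (E B) := fun e he => hS.ord e (hEB he)
    have fe : ∀ m, Face (vp (x B)) (E B) (zp (x B) m) = Face (vp (x B)) B (zp (x B) m) := by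
      intro m
      refine Set.Subset.antisymm ?_ (face_mono hEB _)
      rw [← face_bd hS.ord (zp_free a1 hS.ord m)]
      exact face_mono (Set.subset_iUnion (fun m => Bd (vp (x B)) B (zp (x B) m)) m) _
    refine ⟨⟨fun e he => mem_coe.2 (mem_product.2 (hB.1 e (hEB he))), ?_⟩, fun a ha b hb => ?_⟩
    · refine (Set.ncard_iUnion_le_of_fintype _).trans ?_
      refine (sum_le_card_nsmul _ _ _ (fun m _ =>
        bd_card hS (zp_free a1 hS.ord m) hg hs hB.2.1 hB.1)).trans ?_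
      simp
    have hab : a ≠ b := fun k => by
      have := (a2 a ha).trans (a3 b hb)
      rw [k] at this
      exact lt_irrefl _ this
    constructor
    · rintro k ⟨m, hm⟩
      obtain ⟨q, q1, q2⟩ := blk_transfer hst.symm (vp_gen hy) (hst.ord o) (zp_free hy (hst.ord o) m)
        (hsv m).symm hab hm
      rw [fe] at q2
      exact (face_free (zp_free a1 hS.ord m) q2).2 _ k q1
    · intro k
      by_contra k'
      obtain ⟨m, q, q1, q2⟩ := a4 a ha b hb k'
      rw [← fe] at q2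
      exact k ⟨m, blk_transfer hst hg o (zp_free a1 o m) (hsv m) hab ⟨q, q1, q2⟩⟩
  refine Set.ncard_le_ncard_of_injOn E (fun B hB => (key B hB.1 hB.2).1) ?_ (Set.toFinite _)
  intro B hB B' hB' e
  ext ⟨a, b⟩
  constructor
  · intro k
    obtain ⟨ha, hb⟩ := hB.1.1 _ k
    rw [(key B' hB'.1 hB'.2).2 a ha b hb, ← e]
    exact ((key B hB.1 hB.2).2 a ha b hb).1 k
  · intro k
    obtain ⟨ha, hb⟩ := hB'.1.1 _ k
    rw [(key B hB.1 hB.2).2 a ha b hb, e]
    exact ((key B' hB'.1 hB'.2).2 a ha b hb).1 k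

theorem rep {k : ℕ} (hk : k ≤ h) (G : SimpleGraph (Fin n)) (p : Fin n → Pt) (O : Fin k → Set Pt)
    (h1 : ∀ m, IsCompact (O m)) (h2 : ∀ m, IsConnected (O m)) (h3 : ∀ m i, p i ∉ O m)
    (h4 : ∀ i j, i ≠ j → (G.Adj i j ↔ ∀ m, Disjoint (segment ℝ (p i) (p j)) (O m))) :
    ∃ x : Vr (n + h) → ℝ, GX x ∧ ∀ B : Set (Fin n × Fin n), (∀ e ∈ B, G.Adj e.1 e.2) →
      Ordered (vp x) B → ∀ a b, a ≠ b → ¬ G.Adj a b → ∃ m, Blk (vp x) B (zp x m) a b := by
  let C : Set Pt := (⋃ i, {p i}) ∪ ⋃ e : {e : Fin n × Fin n // G.Adj e.1 e.2},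
    segment ℝ (p e.1.1) (p e.1.2)
  have hC : IsClosed C := (isClosed_iUnion_of_finite (fun i => isClosed_singleton)).union
    (isClosed_iUnion_of_finite (fun e => (isCompact_seg _ _).isClosed))
  have hd : Disjoint (⋃ m, O m) C := by
    rw [Set.disjoint_left]
    intro z hz
    obtain ⟨m, hz⟩ := Set.mem_iUnion.1 hz
    rintro (k | k)
    · obtain ⟨i, hi⟩ := Set.mem_iUnion.1 k
      exact h3 m i (hi ▸ hz)
    · obtain ⟨e, he⟩ := Set.mem_iUnion.1 k
      exact Set.disjoint_left.1 ((h4 _ _ e.2.ne).1 e.2 m) he hz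
  obtain ⟨δ, hδ, hdd⟩ := hd.exists_thickenings (isCompact_iUnion h1) hC
  choose z hz using fun m => (h2 m).nonempty
  let P : Fin (n + h) → Pt := Fin.addCases p (fun m => if c : (m : ℕ) < k then z ⟨m, c⟩ else 0)
  let x0 : Vr (n + h) → ℝ := fun v => match v with
    | (some i, false) => (P i).1
    | (some i, true) => (P i).2
    | (none, _) => 0
  obtain ⟨x, hx, hnear⟩ := exists_GX x0 hδ
  have n0 : ∀ i, dist (cp x i) (P i) < δ := fun i => by
    rw [Prod.dist_eq]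
    exact max_lt (hnear (some i, false)) (hnear (some i, true))
  have n1 : ∀ i, dist (vp x i) (p i) < δ := fun i => by
    simpa only [P, vp, Fin.addCases_left] using n0 (Fin.castAdd h i)
  have n2 : ∀ m : Fin k, dist (zp x (Fin.castLE hk m)) (z m) < δ := fun m => by
    simpa only [P, zp, Fin.addCases_right, Fin.val_castLE, m.2, dif_pos, Fin.eta] using
      n0 (Fin.natAdd n (Fin.castLE hk m))
  refine ⟨x, hx, fun B hBG hB a b hab hn => ?_⟩
  have hball : ∀ m, ∀ z ∈ O m, ball z δ ⊆ Free (vp x) B := by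
    intro m z hz q hq
    have k : q ∉ thickening δ C := Set.disjoint_left.1 hdd
      (mem_thickening_iff.2 ⟨z, Set.mem_iUnion.2 ⟨m, hz⟩, hq⟩)
    refine ⟨fun i e => k (mem_thickening_iff.2 ⟨p i, Or.inl (Set.mem_iUnion.2 ⟨i, rfl⟩),
      e ▸ n1 i⟩), fun e he hm => k ?_⟩
    obtain ⟨q', a, b⟩ := seg_near (n1 _) (n1 _) hm
    exact mem_thickening_iff.2 ⟨q', Or.inr (Set.mem_iUnion.2 ⟨⟨e, hBG e he⟩, a⟩), b⟩
  rw [h4 a b hab] at hn
  push Not at hn
  obtain ⟨m, hm⟩ := hn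
  obtain ⟨q, q1, q2⟩ := Set.not_disjoint_iff.1 hm
  have hf := zp_free hx hB (Fin.castLE hk m)
  have hO : O m ⊆ Face (vp x) B (zp x (Fin.castLE hk m)) := by
    refine (h2 m).isPreconnected.subset_of_closure_inter_subset (isOpen_face hf) ⟨z m, hz m,
      Conn.single (((convex_ball (z m) δ).segment_subset (n2 m) (mem_ball_self hδ)).trans
        (hball m _ (hz m)))⟩ ?_
    rintro q ⟨q1, q2⟩
    obtain ⟨z, hz, hd⟩ := Metric.mem_closure_iff.1 q1 δ hδ
    exact face_seg hz (((convex_ball q δ).segment_subset (by rwa [mem_ball, dist_comm])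
      (mem_ball_self hδ)).trans (hball m q q2)) (right_mem_segment _ _ _)
  obtain ⟨q', a', b'⟩ := seg_near (a' := vp x a) (b' := vp x b) (by rw [dist_comm]; exact n1 a)
    (by rw [dist_comm]; exact n1 b) q1
  exact ⟨_, q', a', face_seg (hO q2) (((convex_ball q δ).segment_subset (mem_ball_self hδ)
    (by rwa [mem_ball, dist_comm])).trans (hball m q q2)) (right_mem_segment _ _ _)⟩

end Pool.Agent.Lib.MP_5bf547_lin
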