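import Mathlib
import Pool.Agent.Lib.MP_5bf547_lin.Good

/-! Union bound: almost no subgraph of a graph containing a balanced complete bipartite graph
has a representation with few obstacles. -/

namespace Pool.Agent.Lib.MP_5bf547_lin

open Classical Finset Pool.Agent.Lib.MP_5bf547_co

variable {n : ℕ}

/-- the bipartite part of `G` between `X` and `Y` -/
def res (G : SimpleGraph (Fin n)) (X Y : Finset (Fin n)) : Set (Fin n × Fin n) :=
  {e | e.1 ∈ X ∧ e.2 ∈ Y ∧ G.Adj e.1 e.2}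

def Cpl (Γ : SimpleGraph (Fin n)) (X Y : Finset (Fin n)) : Prop := ∀ a ∈ X, ∀ b ∈ Y, Γ.Adj a b

lemma slice (Γ : SimpleGraph (Fin n)) {X Y : Finset (Fin n)} (hΓ : Cpl Γ X Y)
    (T : Set (Set (Fin n × Fin n))) :
    {G | G ≤ Γ ∧ res G X Y ∈ T}.ncard * 2 ^ (X.card * Y.card) ≤ T.ncard * {G | G ≤ Γ}.ncard := by
  have hd : ∀ a, a ∈ X → a ∈ Y → False := fun a ha hb => (hΓ a ha a hb).ne rfl
  let rp : SimpleGraph (Fin n) × Set (Fin n × Fin n) → SimpleGraph (Fin n) := fun z =>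
    { Adj := fun u v => ((u ∈ X ∧ v ∈ Y ∧ (u, v) ∈ z.2) ∨ (v ∈ X ∧ u ∈ Y ∧ (v, u) ∈ z.2)) ∨
        (z.1.Adj u v ∧ ¬ (u ∈ X ∧ v ∈ Y) ∧ ¬ (v ∈ X ∧ u ∈ Y))
      symm := ⟨fun u v k => by
        rcases k with k | k
        · exact Or.inl k.symm
        · exact Or.inr ⟨k.1.symm, k.2.2, k.2.1⟩⟩
      loopless := ⟨fun u k => by
        rcases k with (k | k) | k
        · exact hd u k.1 k.2.1
        · exact hd u k.1 k.2.1
        · exact k.1.ne rfl⟩ }
  have e1 : 2 ^ (X.card * Y.card) = (𝒫 (↑(X ×ˢ Y) : Set (Fin n × Fin n))).ncard := by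
    rw [Set.ncard_powerset, Set.ncard_coe_finset, card_product]
  rw [e1, ← Set.ncard_prod, ← Set.ncard_prod]
  refine Set.ncard_le_ncard_of_injOn (fun z => (res z.1 X Y, rp z)) ?_ ?_ (Set.toFinite _)
  · rintro ⟨G, E⟩ ⟨⟨a, b⟩, _⟩
    refine ⟨b, fun u v k => ?_⟩
    rcases k with (k | k) | k
    · exact hΓ u k.1 v k.2.1
    · exact (hΓ v k.1 u k.2.1).symm
    · exact a k.1
  · rintro ⟨G, E⟩ ⟨_, c⟩ ⟨G', E'⟩ ⟨_, c'⟩ e
    obtain ⟨e1, e2⟩ := Prod.mk.inj e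
    have r : ∀ u v, u ∈ X → v ∈ Y → (G.Adj u v ↔ G'.Adj u v) := by
      intro u v hu hv
      have := Set.ext_iff.1 e1 (u, v)
      simpa only [res, Set.mem_ofPred_eq, hu, hv, true_and] using this
    have r2 : ∀ u v, (rp (G, E)).Adj u v ↔ (rp (G', E')).Adj u v := fun u v => by rw [e2]
    refine Prod.ext ?_ ?_
    · ext u v
      by_cases k : u ∈ X ∧ v ∈ Y
      · exact r u v k.1 k.2
      by_cases k' : v ∈ X ∧ u ∈ Y
      · rw [G.adj_comm, G'.adj_comm]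
        exact r v u k'.1 k'.2
      have n1 : ∀ P : Prop, ¬ (u ∈ X ∧ v ∈ Y ∧ P) := fun P a => k ⟨a.1, a.2.1⟩
      have n2 : ∀ P : Prop, ¬ (v ∈ X ∧ u ∈ Y ∧ P) := fun P a => k' ⟨a.1, a.2.1⟩
      have := r2 u v
      simpa only [rp, n1, n2, k, k', false_or, not_false_eq_true, and_true] using this
    · ext ⟨u, v⟩
      by_cases k : u ∈ X ∧ v ∈ Y
      · have n1 : u ∉ Y := hd u k.1
        have := r2 u v
        simpa only [rp, k.1, k.2, n1, true_and, false_and, and_false, or_false, not_true_eq_false,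
          and_self] using this
      · constructor
        · intro a
          exact absurd (mem_product.1 (mem_coe.1 (c a))) k
        · intro a
          exact absurd (mem_product.1 (mem_coe.1 (c' a))) k

lemma split_aux {f : Fin n → ℝ} (hf : Function.Injective f) {U V : Finset (Fin n)} {m : ℕ}
    (hm : 1 ≤ m) (hV : 2 * m ≤ V.card) {a : Fin n}
    (h1 : m ≤ (U.filter (fun i => f i ≤ f a)).card)
    (h2 : ∀ b ∈ V, m ≤ (V.filter (fun i => f i ≤ f b)).card → f a ≤ f b) :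
    ∃ X ⊆ U, ∃ Y ⊆ V, ∃ c : ℝ, X.card = m ∧ Y.card = m ∧ (∀ i ∈ X, f i < c) ∧ ∀ i ∈ Y, c < f i := by
  have k1 : (V.filter (fun i => f i < f a)).card < m := by
    rcases (V.filter (fun i => f i < f a)).eq_empty_or_nonempty with k | k
    · rw [k]; exact hm
    obtain ⟨b, hb, hb'⟩ := exists_max_image _ f k
    obtain ⟨b1, b2⟩ := mem_filter.1 hb
    by_contra c
    refine absurd (h2 b b1 ((not_lt.1 c).trans (card_le_card (fun i hi => ?_)))) (not_le.2 b2)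
    exact mem_filter.2 ⟨(mem_filter.1 hi).1, hb' i hi⟩
  have k2 : V ⊆ (V.filter (fun i => f i < f a) ∪ {a}) ∪ V.filter (fun i => f a < f i) := by
    intro i hi
    simp only [mem_union, mem_filter, mem_singleton, hi, true_and]
    rcases lt_trichotomy (f i) (f a) with c | c | c
    · exact Or.inl (Or.inl c)
    · exact Or.inl (Or.inr (hf c))
    · exact Or.inr c
  have k3 := (card_le_card k2).trans ((card_union_le _ _).trans
    (Nat.add_le_add_right (card_union_le _ _) _))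
  rw [card_singleton] at k3
  obtain ⟨X, x1, x2⟩ := exists_subset_card_eq h1
  obtain ⟨Y, y1, y2⟩ := exists_subset_card_eq
    (show m ≤ (V.filter (fun i => f a < f i)).card by omega)
  obtain ⟨b, hb, hb'⟩ := exists_min_image Y f (card_pos.1 (by omega))
  have k4 := (mem_filter.1 (y1 hb)).2
  refine ⟨X, x1.trans (filter_subset _ _), Y, y1.trans (filter_subset _ _), (f a + f b) / 2, x2, y2,
    fun i hi => ?_, fun i hi => ?_⟩
  · linarith [(mem_filter.1 (x1 hi)).2]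
  · linarith [hb' i hi]

lemma split {f : Fin n → ℝ} (hf : Function.Injective f) {U V : Finset (Fin n)} {m : ℕ}
    (hm : 1 ≤ m) (hU : 2 * m ≤ U.card) (hV : 2 * m ≤ V.card) :
    ∃ X Y : Finset (Fin n), ∃ c : ℝ, ((X ⊆ U ∧ Y ⊆ V) ∨ (X ⊆ V ∧ Y ⊆ U)) ∧ X.card = m ∧
      Y.card = m ∧ (∀ i ∈ X, f i < c) ∧ ∀ i ∈ Y, c < f i := by
  obtain ⟨a0, _, ha0⟩ := exists_max_image U f (card_pos.1 (by omega))
  obtain ⟨a, ha, hmin⟩ := exists_min_image (univ.filter (fun a =>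
    m ≤ (U.filter (fun i => f i ≤ f a)).card ∨ m ≤ (V.filter (fun i => f i ≤ f a)).card)) f
    ⟨a0, mem_filter.2 ⟨mem_univ _, Or.inl (by rw [filter_true_of_mem ha0]; omega)⟩⟩
  rcases (mem_filter.1 ha).2 with k | k
  · obtain ⟨X, x, Y, y, c, r⟩ := split_aux hf hm hV k
      (fun b _ hb => hmin b (mem_filter.2 ⟨mem_univ _, Or.inr hb⟩))
    exact ⟨X, Y, c, Or.inl ⟨x, y⟩, r⟩
  · obtain ⟨X, x, Y, y, c, r⟩ := split_aux hf hm hU k
      (fun b _ hb => hmin b (mem_filter.2 ⟨mem_univ _, Or.inl hb⟩))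
    exact ⟨X, Y, c, Or.inr ⟨x, y⟩, r⟩

/-- representable with at most `h` compact connected obstacles -/
def Rep (h : ℕ) (G : SimpleGraph (Fin n)) : Prop :=
  ∃ k : ℕ, k ≤ h ∧ ∃ p : Fin n → EuclideanSpace ℝ (Fin 2),
    ∃ O : Fin k → Set (EuclideanSpace ℝ (Fin 2)), (∀ m, IsCompact (O m) ∧ IsConnected (O m)) ∧
      ∀ i j, i ≠ j → (G.Adj i j ↔ ∀ m, Disjoint (segment ℝ (p i) (p j)) (O m))

lemma cover {h m s : ℕ} (hm : 1 ≤ m) {U : Finset (Fin n)} {Γ G : SimpleGraph (Fin n)}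
    (hU : 2 * m ≤ U.card) (hV : 2 * m ≤ Uᶜ.card) (hΓ : Cpl Γ U Uᶜ) (hG : Rep h G) :
    (∃ X Y, Cpl Γ X Y ∧ X.card = m ∧ Y.card = m ∧ res G X Y ∈ Good h s X Y) ∨
    (∃ X Y, Cpl Γ X Y ∧ X.card = s ∧ Y.card = s ∧ res G X Y = ∅) ∨
    ∃ i, res G {i} (if i ∈ U then Uᶜ else U) = ∅ := by
  obtain ⟨k, hk, p, O, h1, h2⟩ := hG
  by_cases hv : ∃ i j, p i ∈ O j
  · obtain ⟨i, j, hv⟩ := hv
    refine Or.inr (Or.inr ⟨i, Set.eq_empty_of_forall_notMem ?_⟩)
    rintro ⟨a, b⟩ ⟨e1, _, e3⟩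
    obtain rfl : a = i := mem_singleton.1 e1
    exact Set.disjoint_left.1 ((h2 _ _ e3.ne).1 e3 j) (left_mem_segment _ _ _) hv
  push Not at hv
  have hc : Continuous crd := crd.continuous_of_finiteDimensional
  obtain ⟨x, hx, hb⟩ := rep hk G (fun i => crd (p i)) (fun j => crd '' O j)
    (fun j => (h1 j).1.image hc) (fun j => (h1 j).2.image _ hc.continuousOn)
    (fun j i k => hv i j ((crd_inj.mem_set_image).1 k)) (fun i j k => by
      have : segment ℝ (crd (p i)) (crd (p j)) = crd '' segment ℝ (p i) (p j) :=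
        (image_segment ℝ crd.toAffineMap (p i) (p j)).symm
      simp only [h2 i j k, this, Set.disjoint_image_iff crd_inj])
  obtain ⟨X, Y, c, r1, r2, r3, r4, r5⟩ := split (f := fun i => (vp x i).1)
    (fun i j k => (vp_gen hx).x i j k) hm hU hV
  have hXY : Cpl Γ X Y := by
    rcases r1 with r | r
    · exact fun a ha b hb => hΓ a (r.1 ha) b (r.2 hb)
    · exact fun a ha b hb => (hΓ b (r.2 hb) a (r.1 ha)).symm
  by_cases hD : Dense X Y (res G X Y) s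
  · refine Or.inl ⟨X, Y, hXY, r2, r3, fun e he => ⟨he.1, he.2.1⟩, hD, x, hx, c, r4, r5,
      fun a ha b hb' k => ?_⟩
    exact hb _ (fun e he => he.2.2) (fun e he => (r4 _ he.1).trans (r5 _ he.2.1)) a b
      (hXY a ha b hb').ne (fun c => k ⟨ha, hb', c⟩)
  · unfold Dense at hD
    push Not at hD
    obtain ⟨A, hA, A', hA', k1, k2, k3⟩ := hD
    obtain ⟨A1, a1, a2⟩ := exists_subset_card_eq k1
    obtain ⟨A2, a3, a4⟩ := exists_subset_card_eq k2
    refine Or.inr (Or.inl ⟨A1, A2, fun a ha b hb => hXY a (hA (a1 ha)) b (hA' (a3 hb)), a2, a4,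
      Set.eq_empty_of_forall_notMem ?_⟩)
    rintro ⟨a, b⟩ ⟨e1, e2, e3⟩
    exact k3 a (a1 e1) b (a3 e2) ⟨hA (a1 e1), hA' (a3 e2), e3⟩

lemma union_le {α κ : Type} (W : Finset κ) (S : κ → Set α) (t : ℝ)
    (h : ∀ w ∈ W, ((S w).ncard : ℝ) ≤ t) : ((⋃ w ∈ W, S w).ncard : ℝ) ≤ W.card * t := by
  refine (Nat.cast_le.2 (W.set_ncard_biUnion_le S)).trans ?_
  rw [Nat.cast_sum]
  simpa using sum_le_card_nsmul W _ t h

lemma slice' (Γ : SimpleGraph (Fin n)) {X Y : Finset (Fin n)} (hΓ : Cpl Γ X Y)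
    (T : Set (Set (Fin n × Fin n))) {t : ℝ} {M : ℕ} (hM : M ≤ X.card * Y.card)
    (ht : (T.ncard : ℝ) ≤ t) :
    ({G | G ≤ Γ ∧ res G X Y ∈ T}.ncard : ℝ) ≤ t / 2 ^ M * {G | G ≤ Γ}.ncard := by
  have a : (({G | G ≤ Γ ∧ res G X Y ∈ T}.ncard * 2 ^ M : ℕ) : ℝ) ≤
      ((T.ncard * {G | G ≤ Γ}.ncard : ℕ) : ℝ) := Nat.cast_le.2
    ((Nat.mul_le_mul_left _ (Nat.pow_le_pow_right (by norm_num) hM)).trans (slice Γ hΓ T))
  push_cast at a
  rw [div_mul_eq_mul_div, le_div_iff₀ (by positivity)]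
  exact a.trans (mul_le_mul_of_nonneg_right ht (Nat.cast_nonneg _))

lemma good_real {h m s : ℕ} (hs : 1 ≤ s) (X Y : Finset (Fin n)) (b : X.card = m) (c : Y.card = m) :
    ((Good h s X Y).ncard : ℝ) ≤ ((n + h + 2) ^ (26 * (n + h + 2)) : ℕ) *
      (4 ^ (h * (4 * (6 * n + 80 * s ^ 6))) * (5 / 4) ^ (m * m)) := by
  refine (Nat.cast_le.2 (good_card hs X Y)).trans ?_
  rw [Nat.cast_mul]
  refine mul_le_mul_of_nonneg_left ?_ (Nat.cast_nonneg _)
  have := small_card (X ×ˢ Y) (h * (4 * (6 * n + 80 * s ^ 6)))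
  rwa [card_product, b, c] at this

theorem count {h m s : ℕ} (hm : 1 ≤ m) {U : Finset (Fin n)} {Γ : SimpleGraph (Fin n)}
    (hU : 2 * m ≤ U.card) (hV : 2 * m ≤ Uᶜ.card) (hΓ : Cpl Γ U Uᶜ) {t : ℝ} (ht0 : 0 ≤ t)
    (ht : ∀ X Y : Finset (Fin n), X.card = m → Y.card = m → ((Good h s X Y).ncard : ℝ) ≤ t) :
    ({G | G ≤ Γ ∧ Rep h G}.ncard : ℝ) ≤ (4 ^ n * (t / 2 ^ (m * m)) +
        (n : ℝ) ^ (2 * s) * (1 / 2 ^ (s * s)) + n * (1 / 2 ^ (2 * m))) * {G | G ≤ Γ}.ncard := by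
  set W1 : Finset (Finset (Fin n) × Finset (Fin n)) :=
    univ.filter (fun w => Cpl Γ w.1 w.2 ∧ w.1.card = m ∧ w.2.card = m) with hW1
  set W2 : Finset (Finset (Fin n) × Finset (Fin n)) :=
    (powersetCard s univ ×ˢ powersetCard s univ).filter (fun w => Cpl Γ w.1 w.2) with hW2
  have hsub : {G | G ≤ Γ ∧ Rep h G} ⊆
      ((⋃ w ∈ W1, {G | G ≤ Γ ∧ res G w.1 w.2 ∈ Good h s w.1 w.2}) ∪
      ⋃ w ∈ W2, {G | G ≤ Γ ∧ res G w.1 w.2 ∈ ({∅} : Set (Set (Fin n × Fin n)))}) ∪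
      ⋃ i ∈ (univ : Finset (Fin n)), {G | G ≤ Γ ∧ res G {i} (if i ∈ U then Uᶜ else U) ∈
        ({∅} : Set (Set (Fin n × Fin n)))} := by
    rintro G ⟨g1, g2⟩
    rcases cover (s := s) hm hU hV hΓ g2 with ⟨X, Y, a, b, c, d⟩ | ⟨X, Y, a, b, c, d⟩ | ⟨i, d⟩
    · exact Or.inl (Or.inl (Set.mem_biUnion (x := (X, Y))
        (mem_coe.2 (mem_filter.2 ⟨mem_univ _, a, b, c⟩)) ⟨g1, d⟩))
    · exact Or.inl (Or.inr (Set.mem_biUnion (x := (X, Y)) (mem_coe.2 (mem_filter.2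
        ⟨mem_product.2 ⟨mem_powersetCard.2 ⟨subset_univ _, b⟩,
          mem_powersetCard.2 ⟨subset_univ _, c⟩⟩, a⟩)) ⟨g1, d⟩))
    · exact Or.inr (Set.mem_biUnion (x := i) (mem_coe.2 (mem_univ _)) ⟨g1, d⟩)
  have a0 := (Set.ncard_le_ncard hsub (Set.toFinite _)).trans ((Set.ncard_union_le _ _).trans
    (Nat.add_le_add_right (Set.ncard_union_le _ _) _))
  have a1 := union_le W1 (fun w => {G | G ≤ Γ ∧ res G w.1 w.2 ∈ Good h s w.1 w.2}) _
    (fun w hw => by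
      obtain ⟨_, a, b, c⟩ := mem_filter.1 hw
      exact slice' Γ a _ (M := m * m) (t := t) (by rw [b, c]) (ht _ _ b c))
  have a2 := union_le W2
    (fun w => {G | G ≤ Γ ∧ res G w.1 w.2 ∈ ({∅} : Set (Set (Fin n × Fin n)))}) _
    (fun w hw => by
      obtain ⟨b, a⟩ := mem_filter.1 hw
      obtain ⟨b, c⟩ := mem_product.1 b
      exact slice' Γ a _ (M := s * s) (t := 1)
        (by rw [(mem_powersetCard.1 b).2, (mem_powersetCard.1 c).2]) (by simp))
  have a3 := union_le (univ : Finset (Fin n)) (fun i => {G | G ≤ Γ ∧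
    res G {i} (if i ∈ U then Uᶜ else U) ∈ ({∅} : Set (Set (Fin n × Fin n)))}) _
    (fun i _ => by
      refine slice' Γ (fun a ha b hb => ?_) _ (M := 2 * m) (t := 1) ?_ (by simp)
      · obtain rfl : a = i := mem_singleton.1 ha
        split_ifs at hb with c
        · exact hΓ a c b hb
        · exact (hΓ b hb a (mem_compl.2 c)).symm
      · rw [card_singleton, one_mul]
        split_ifs
        · exact hV
        · exact hU)
  have c1 : (W1.card : ℝ) ≤ 4 ^ n := by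
    have : W1.card ≤ 4 ^ n := by
      refine (card_filter_le _ _).trans (le_of_eq ?_)
      rw [card_univ, Fintype.card_prod, Fintype.card_finset, Fintype.card_fin, ← mul_pow]
      rfl
    exact_mod_cast this
  have c2 : (W2.card : ℝ) ≤ (n : ℝ) ^ (2 * s) := by
    have : W2.card ≤ n ^ (2 * s) := by
      refine (card_filter_le _ _).trans ?_
      rw [card_product, card_powersetCard, card_univ, Fintype.card_fin, two_mul, pow_add]
      exact Nat.mul_le_mul (Nat.choose_le_pow _ _) (Nat.choose_le_pow _ _)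
    exact_mod_cast this
  rw [card_univ, Fintype.card_fin] at a3
  have a4 := a1.trans (mul_le_mul_of_nonneg_right c1 (by positivity))
  have a5 := a2.trans (mul_le_mul_of_nonneg_right c2 (by positivity))
  refine (Nat.cast_le.2 a0).trans ?_
  rw [Nat.cast_add, Nat.cast_add, add_mul, add_mul, mul_assoc, mul_assoc, mul_assoc]
  exact add_le_add (add_le_add a4 a5) a3

end Pool.Agent.Lib.MP_5bf547_lin
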