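import Mathlib
import Pool.Agent.Lib.MP_5bf547_lin.Count

/-! The numerical estimates and the main theorem. -/

namespace Pool.Agent.Lib.MP_5bf547_lin

open Classical Finset

lemma pow6 (L : ℕ) (hL : 50 ≤ L) : 729 * L ^ 6 ≤ 2 ^ (L - 1) := by
  induction L, hL using Nat.le_induction with
  | base => norm_num
  | succ k hk ih =>
    have e : 2 ^ (k + 1 - 1) = 2 * 2 ^ (k - 1) := by
      rw [← pow_succ']; congr 1; omega
    have a : 50 * (k + 1) ≤ 51 * k := by omega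
    have b := Nat.pow_le_pow_left a 6
    rw [mul_pow, mul_pow] at b
    rw [e]
    norm_num at b
    omega

lemma term1 {n τ K M T L : ℕ} (hn : 0 < n) (h1 : n ≤ 2 ^ L) (h2 : 4 ^ n * τ * 2 ^ L ≤ 2 ^ T)
    (h3 : 3 * T ≤ M) (h4 : 8 * K ≤ M) :
    (4 : ℝ) ^ n * ((τ * (4 ^ K * (5 / 4) ^ M)) / 2 ^ M) ≤ 1 / n := by
  have a1 : (4 : ℝ) ^ K ≤ (6 / 5) ^ M := by
    calc (4 : ℝ) ^ K ≤ ((6 / 5) ^ 8) ^ K := pow_le_pow_left₀ (by norm_num) (by norm_num) _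
      _ = (6 / 5) ^ (8 * K) := by rw [← pow_mul]
      _ ≤ _ := pow_le_pow_right₀ (by norm_num) h4
  have a2 : (4 : ℝ) ^ K * (5 / 4) ^ M / 2 ^ M ≤ (1 / 2) ^ T := by
    calc (4 : ℝ) ^ K * (5 / 4) ^ M / 2 ^ M ≤ (6 / 5) ^ M * (5 / 4) ^ M / 2 ^ M := by gcongr
      _ = (3 / 4) ^ M := by rw [← mul_pow, ← div_pow]; norm_num
      _ ≤ (3 / 4) ^ (3 * T) := pow_le_pow_of_le_one (by norm_num) (by norm_num) h3
      _ = ((3 / 4) ^ 3) ^ T := by rw [← pow_mul]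
      _ ≤ _ := pow_le_pow_left₀ (by norm_num) (by norm_num) _
  have a3 : ((4 ^ n * τ * n : ℕ) : ℝ) ≤ ((2 ^ T : ℕ) : ℝ) :=
    Nat.cast_le.2 ((Nat.mul_le_mul_left _ h1).trans h2)
  push_cast at a3
  have a4 : (2 : ℝ) ^ T * (1 / 2) ^ T = 1 := by rw [← mul_pow]; norm_num
  rw [le_div_iff₀ (Nat.cast_pos.2 hn)]
  calc (4 : ℝ) ^ n * ((τ * (4 ^ K * (5 / 4) ^ M)) / 2 ^ M) * n
      = (4 ^ n * τ * n) * (4 ^ K * (5 / 4) ^ M / 2 ^ M) := by ring
    _ ≤ 2 ^ T * (1 / 2) ^ T := mul_le_mul a3 a2 (by positivity) (by positivity)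
    _ = 1 := a4

lemma term2 {n a b L : ℕ} (hn : 0 < n) (h1 : n ≤ 2 ^ L) (h2 : L * (a + 1) ≤ b) :
    (n : ℝ) ^ a * (1 / 2 ^ b) ≤ 1 / n := by
  have a1 : ((n ^ (a + 1) : ℕ) : ℝ) ≤ ((2 ^ b : ℕ) : ℝ) := Nat.cast_le.2
    ((Nat.pow_le_pow_left h1 _).trans (by rw [← pow_mul]; exact Nat.pow_le_pow_right two_pos h2))
  push_cast at a1
  rw [le_div_iff₀ (Nat.cast_pos.2 hn), mul_one_div, div_mul_eq_mul_div, ← pow_succ,
    div_le_one (by positivity)]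
  exact a1

theorem main {n h : ℕ} (hn : 2 ^ 50 ≤ n) (hh : 70000 * h ≤ n) {U : Finset (Fin n)}
    {Γ : SimpleGraph (Fin n)} (hU : U.card = n / 2) (hΓ : Cpl Γ U Uᶜ) :
    (n : ℝ) * {G | G ≤ Γ ∧ Rep h G}.ncard ≤ 3 * {G | G ≤ Γ}.ncard := by
  have hn0 : 0 < n := lt_of_lt_of_le (by norm_num) hn
  obtain ⟨L, hL⟩ : ∃ L, L = Nat.log 2 n + 1 := ⟨_, rfl⟩
  have l1 : n ≤ 2 ^ L := hL ▸ (Nat.lt_pow_succ_log_self one_lt_two n).le
  have l2 : 50 ≤ L := by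
    have := Nat.le_log_of_pow_le one_lt_two hn
    omega
  have l3 : 729 * L ^ 6 ≤ n := (pow6 L l2).trans (by
    rw [hL, Nat.add_sub_cancel]; exact Nat.pow_log_le_self 2 hn0.ne')
  have l4 : 50 ^ 5 * L ≤ L ^ 6 := by
    rw [show L ^ 6 = L ^ 5 * L by ring]
    exact Nat.mul_le_mul_right _ (Nat.pow_le_pow_left l2 5)
  norm_num at l4
  obtain ⟨m, hm⟩ : ∃ m, m = n / 4 := ⟨_, rfl⟩
  have m1 : n ≤ 5 * m := by omega
  have m2 : 1605 * L ≤ m := by omega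
  have hV : Uᶜ.card = n - n / 2 := by rw [card_compl, Fintype.card_fin, hU]
  have c := count (h := h) (m := m) (s := 3 * L) (by omega) (by omega) (by omega) hΓ
    (by positivity) (fun X Y a b => good_real (by omega) X Y a b)
  have t1 := term1 (n := n) (τ := (n + h + 2) ^ (26 * (n + h + 2)))
    (K := h * (4 * (6 * n + 80 * (3 * L) ^ 6))) (M := m * m) (L := L)
    (T := 2 * n + (L + 1) * (26 * (n + h + 2)) + L) hn0 l1 (by
      rw [pow_add, pow_add, pow_mul 2 2 n, pow_mul 2 (L + 1)]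
      refine Nat.mul_le_mul_right _ (Nat.mul_le_mul le_rfl (Nat.pow_le_pow_left ?_ _))
      rw [pow_succ]
      omega) (by
      have a : (L + 1) * (26 * (n + h + 2)) ≤ (2 * L) * (26 * (2 * n)) :=
        Nat.mul_le_mul (by omega) (by omega)
      have b : n ≤ L * n := Nat.le_mul_of_pos_left _ (by omega)
      have c : L ≤ L * n := Nat.le_mul_of_pos_right _ hn0
      have d : L * n ≤ L * (5 * m) := Nat.mul_le_mul_left _ m1
      have e : 1605 * L * m ≤ m * m := Nat.mul_le_mul_right _ m2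
      nlinarith) (by
      have a : 6 * n + 80 * (3 * L) ^ 6 ≤ 86 * n := by
        rw [mul_pow]; norm_num; omega
      have b : h * (4 * (6 * n + 80 * (3 * L) ^ 6)) ≤ h * (4 * (86 * n)) :=
        Nat.mul_le_mul_left _ (Nat.mul_le_mul_left _ a)
      have c : 70000 * h * n ≤ (5 * m) * (5 * m) := Nat.mul_le_mul (hh.trans m1) m1
      nlinarith)
  have t2 := term2 (a := 2 * (3 * L)) (b := 3 * L * (3 * L)) hn0 l1 (by nlinarith)
  have t3 := term2 (a := 1) (b := 2 * m) hn0 l1 (by omega)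
  rw [pow_one] at t3
  have c2 := c.trans (mul_le_mul_of_nonneg_right (add_le_add (add_le_add t1 t2) t3)
    (Nat.cast_nonneg _))
  have hn' : (0 : ℝ) < n := Nat.cast_pos.2 hn0
  calc (n : ℝ) * {G | G ≤ Γ ∧ Rep h G}.ncard
      ≤ n * ((1 / n + 1 / n + 1 / n) * {G | G ≤ Γ}.ncard) := mul_le_mul_of_nonneg_left c2 hn'.le
    _ = 3 * {G | G ≤ Γ}.ncard := by field_simp; ring

end Pool.Agent.Lib.MP_5bf547_lin
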